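import Pool.Agent.T9h35.RW.Basic

set_option autoImplicit false

/-!
# A potential for the tests of the gates of the second kind, and the detector circuit

Real-valued version of `Pool.Agent.T9h34.Reads` and `Pool.Agent.T9h34.S.Potential`.
-/

namespace Pool.Agent.T9h35.RW

open Finset

section pot

variable {ι : Type*}

/-- The tests of a gate of the second kind. -/
def Gate.tests : Gate ι → List (Test ι)
  | .mono _ _ => []
  | .other tests _ => tests

/-- The number of tests. -/
def Circuit.numTests (C : Circuit ι) : ℕ := (C.gates.map (fun g => g.tests.length)).sum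

/-- The answers to the tests of gate number `j` on the input `x`. -/
noncomputable def Circuit.readsAt (C : Circuit ι) (x : ι → Bool) (j : ℕ) : List Bool :=
  match C.gates[j]? with
  | some g => g.tests.map (fun t => Test.eval x (runGates x (C.gates.take j)) t)
  | none => []

/-- The answers to all tests on the input `x`. -/
noncomputable def Circuit.reads (C : Circuit ι) (x : ι → Bool) : List (List Bool) :=
  (List.range C.gates.length).map (C.readsAt x)

/-- The number of tests with answer yes. -/
noncomputable def Gate.trues (g : Gate ι) (x : ι → Bool) (vals : List ℝ) : ℕ :=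
  (g.tests.map (fun t => Test.eval x vals t)).count true

/-- The number of tests with answer yes, summed over all gates of the second kind and all values of
the earlier ones. -/
noncomputable def pot (x : ι → Bool) : List ℝ → List (Gate ι) → ℕ
  | _, [] => 0
  | vals, g :: gs => if g.isOther then
      g.trues x vals + (pot x (vals ++ [0]) gs + pot x (vals ++ [1]) gs)
    else pot x (vals ++ [g.eval x vals]) gs

/-- Pointwise comparison of lists of values of the same length. -/
def LeL (l l' : List ℝ) : Prop :=
  l.length = l'.length ∧ ∀ j, l.getD j 0 ≤ l'.getD j 0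

theorem LeL.append {l l' : List ℝ} (h : LeL l l') {b b' : ℝ} (hb : b ≤ b') :
    LeL (l ++ [b]) (l' ++ [b']) := by
  refine ⟨by simp [h.1], ?_⟩
  intro j
  rcases lt_trichotomy j l.length with hj' | hj' | hj'
  · rw [getD_append_lt hj', getD_append_lt (by rw [← h.1]; exact hj')]
    exact h.2 j
  · rw [getD_append_eq hj', getD_append_eq (by rw [← h.1]; exact hj')]
    exact hb
  · rw [List.getD_eq_default _ _ (by simp; omega), List.getD_eq_default _ _ (by
      have := h.1
      simp; omega)]

theorem test_mono {x y : ι → Bool} (hxy : ∀ i, x i = true → y i = true) {l l' : List ℝ}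
    (hl : ∀ j, l.getD j 0 ≤ l'.getD j 0) (t : Test ι) (h : Test.eval x l t = true) :
    Test.eval y l' t = true := by
  rw [test_eval] at h ⊢
  exact h.trans (Src.eval_mono hxy hl _)

theorem count_le_of (x y : ι → Bool) (l l' : List ℝ) (ts : List (Test ι))
    (h : ∀ t ∈ ts, Test.eval x l t = true → Test.eval y l' t = true) :
    (ts.map (fun t => Test.eval x l t)).count true ≤
        (ts.map (fun t => Test.eval y l' t)).count true ∧
    ((ts.map (fun t => Test.eval x l t)).count true =
        (ts.map (fun t => Test.eval y l' t)).count true →
      ∀ t ∈ ts, Test.eval x l t = Test.eval y l' t) := by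
  induction ts with
  | nil => simp
  | cons a as ih =>
    obtain ⟨h1, h2⟩ := ih (fun b hb => h b (by simp [hb]))
    have h3 := h a (by simp)
    simp only [List.map_cons, List.count_cons, List.mem_cons, forall_eq_or_imp]
    cases hx : Test.eval x l a <;> cases hy : Test.eval y l' a
    · simp only [beq_iff_eq, Bool.false_eq_true, if_false, Nat.add_zero, true_and]
      exact ⟨h1, h2⟩
    · simp only [beq_iff_eq, Bool.false_eq_true, if_false, Nat.add_zero, if_true]
      exact ⟨by omega, fun he => by omega⟩
    · rw [hx, hy] at h3
      simp at h3
    · simp only [beq_iff_eq, if_true, true_and]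
      exact ⟨by omega, fun he => h2 (by omega)⟩

theorem trues_le {x y : ι → Bool} (hxy : ∀ i, x i = true → y i = true) {l l' : List ℝ}
    (hl : LeL l l') (g : Gate ι) : g.trues x l ≤ g.trues y l' :=
  (count_le_of x y l l' g.tests (fun t _ => test_mono hxy hl.2 t)).1

theorem trues_eq {x y : ι → Bool} (hxy : ∀ i, x i = true → y i = true) {l l' : List ℝ}
    (hl : LeL l l') (g : Gate ι) (h : g.trues x l = g.trues y l') :
    ∀ t ∈ g.tests, Test.eval x l t = Test.eval y l' t :=
  (count_le_of x y l l' g.tests (fun t _ => test_mono hxy hl.2 t)).2 h

theorem gate_le {f : ℕ} {x y : ι → Bool} (hxy : ∀ i, x i = true → y i = true) {l l' : List ℝ}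
    (hl : LeL l l') (g : Gate ι) (hg : g.IsMono f) : g.eval x l ≤ g.eval y l' := by
  cases g with
  | mono args φ =>
    simp only [Gate.eval]
    exact hg.2 _ _ (forall₂_map_le _ _ _ fun a _ => Src.eval_mono hxy hl.2 a)
  | other tests φ => exact absurd hg (by simp [Gate.IsMono])

theorem isMono_of_fanIn {f d : ℕ} {g : Gate ι} (h : g.FanIn f d) (hg : g.isOther = false) :
    g.IsMono f := by
  cases g with
  | mono args φ => exact h
  | other tests φ => simp [Gate.isOther] at hg

theorem pot_le {f d : ℕ} {x y : ι → Bool} (hxy : ∀ i, x i = true → y i = true)
    (gs : List (Gate ι)) (hfan : ∀ g ∈ gs, g.FanIn f d) :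
    ∀ {l l' : List ℝ}, LeL l l' → pot x l gs ≤ pot y l' gs := by
  induction gs with
  | nil => intro l l' _; simp [pot]
  | cons g gs ih =>
    intro l l' hl
    have ih' := @ih (fun g' hg' => hfan g' (by simp [hg']))
    unfold pot
    cases hg : g.isOther with
    | true =>
      simp only [if_true]
      exact Nat.add_le_add (trues_le hxy hl g)
        (Nat.add_le_add (ih' (hl.append le_rfl)) (ih' (hl.append le_rfl)))
    | false =>
      simp only [Bool.false_eq_true, if_false]
      exact ih' (hl.append (gate_le hxy hl g (isMono_of_fanIn (hfan g (by simp)) hg)))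

theorem pot_bound {f dd : ℕ} (x : ι → Bool) (gs : List (Gate ι))
    (hfan : ∀ g ∈ gs, g.FanIn f dd) :
    ∀ l : List ℝ, pot x l gs + dd ≤ dd * 2 ^ gs.countP Gate.isOther := by
  induction gs with
  | nil => intro l; simp [pot]
  | cons g gs ih =>
    intro l
    have ih' := ih (fun g' hg' => hfan g' (by simp [hg']))
    unfold pot
    cases hg : g.isOther with
    | true =>
      rw [List.countP_cons, hg]
      simp only [if_true]
      have h1 : g.trues x l ≤ dd := by
        cases g with
        | mono args φ => simp [Gate.isOther] at hg
        | other tests φ =>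
          refine le_trans ?_ (hfan (Gate.other tests φ) (by simp))
          unfold Gate.trues
          refine List.count_le_length.trans ?_
          simp [Gate.tests]
      have h2 := ih' (l ++ [0])
      have h3 := ih' (l ++ [1])
      rw [pow_succ]
      nlinarith
    | false =>
      rw [List.countP_cons, hg]
      simp only [Bool.false_eq_true, if_false, Nat.add_zero]
      exact ih' _

/-- Continue a run. -/
noncomputable def runFrom (x : ι → Bool) (vals : List ℝ) (gs : List (Gate ι)) : List ℝ :=
  gs.foldl (fun vals g => vals ++ [g.eval x vals]) vals

theorem eval_eq_of_tests {x y : ι → Bool} {l l' : List ℝ} {g : Gate ι} (hg : g.isOther = true)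
    (h : ∀ t ∈ g.tests, Test.eval x l t = Test.eval y l' t) : g.eval x l = g.eval y l' := by
  cases g with
  | mono args φ => simp [Gate.isOther] at hg
  | other tests φ =>
    have h1 : tests.map (fun t => Test.eval x l t) = tests.map (fun t => Test.eval y l' t) :=
      List.map_congr_left h
    simp only [Gate.eval]
    rw [h1]

theorem eval_zero_or_one {x : ι → Bool} {l : List ℝ} {g : Gate ι} (hg : g.isOther = true) :
    g.eval x l = 0 ∨ g.eval x l = 1 := by
  cases g with
  | mono args φ => simp [Gate.isOther] at hg
  | other tests φ =>
    simp only [Gate.eval]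
    split_ifs
    · exact Or.inr rfl
    · exact Or.inl rfl

theorem tests_of_not {g : Gate ι} (hg : g.isOther = false) : g.tests = [] := by
  cases g with
  | mono args φ => rfl
  | other tests φ => simp [Gate.isOther] at hg

theorem pot_eq {f d : ℕ} {x y : ι → Bool} (hxy : ∀ i, x i = true → y i = true)
    (gs : List (Gate ι)) (hfan : ∀ g ∈ gs, g.FanIn f d) :
    ∀ {l l' : List ℝ}, LeL l l' → pot x l gs = pot y l' gs →
      ∀ (j : ℕ) (g : Gate ι), gs[j]? = some g → ∀ t ∈ g.tests,
        Test.eval x (runFrom x l (gs.take j)) t = Test.eval y (runFrom y l' (gs.take j)) t := by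
  induction gs with
  | nil => intro l l' _ _ j g hg; simp at hg
  | cons g gs ih =>
    intro l l' hl he j g' hj t ht
    have hfan' : ∀ g ∈ gs, g.FanIn f d := fun g' hg' => hfan g' (by simp [hg'])
    have ih' := @ih hfan'
    unfold pot at he
    cases hg : g.isOther with
    | true =>
      rw [hg] at he
      simp only [if_true] at he
      have h1 := trues_le hxy hl g
      have h2 := pot_le hxy gs hfan' (hl.append (le_refl (0 : ℝ)))
      have h3 := pot_le hxy gs hfan' (hl.append (le_refl (1 : ℝ)))
      have h4 := trues_eq hxy hl g (by omega)
      cases j with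
      | zero =>
        simp only [List.getElem?_cons_zero, Option.some.injEq] at hj
        subst hj
        exact h4 t ht
      | succ j =>
        simp only [List.getElem?_cons_succ] at hj
        simp only [List.take_succ_cons, runFrom, List.foldl_cons]
        rw [← eval_eq_of_tests hg h4]
        rcases eval_zero_or_one (x := x) (l := l) hg with hv | hv
        · rw [hv]
          exact ih' (hl.append le_rfl) (by omega) j g' hj t ht
        · rw [hv]
          exact ih' (hl.append le_rfl) (by omega) j g' hj t ht
    | false =>
      rw [hg] at he
      simp only [Bool.false_eq_true, if_false] at he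
      cases j with
      | zero =>
        simp only [List.getElem?_cons_zero, Option.some.injEq] at hj
        subst hj
        rw [tests_of_not hg] at ht
        simp at ht
      | succ j =>
        simp only [List.getElem?_cons_succ] at hj
        simp only [List.take_succ_cons, runFrom, List.foldl_cons]
        exact ih' (hl.append (gate_le hxy hl g (isMono_of_fanIn (hfan g (by simp)) hg)))
          he j g' hj t ht

/-- The potential of a circuit. -/
noncomputable def Circuit.pot (C : Circuit ι) (x : ι → Bool) : ℕ := RW.pot x [] C.gates

theorem leL_nil : LeL [] [] := ⟨rfl, fun _ => le_rfl⟩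

theorem Circuit.pot_mono {f d : ℕ} (C : Circuit ι) (hd : C.FanIn f d) {x y : ι → Bool}
    (hxy : ∀ i, x i = true → y i = true) : C.pot x ≤ C.pot y := pot_le hxy C.gates hd leL_nil

theorem Circuit.pot_lt {f d : ℕ} (C : Circuit ι) (hd : C.FanIn f d) {x y : ι → Bool}
    (hxy : ∀ i, x i = true → y i = true) (h : C.reads x ≠ C.reads y) : C.pot x < C.pot y := by
  refine lt_of_le_of_ne (C.pot_mono hd hxy) ?_
  intro he
  apply h
  unfold Circuit.reads
  apply List.map_congr_left
  intro j _
  unfold Circuit.readsAt
  cases hg : C.gates[j]? with
  | none => rfl
  | some g =>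
    simp only
    apply List.map_congr_left
    intro t ht
    exact pot_eq hxy C.gates hd leL_nil he j g hg t ht

theorem Circuit.pot_bound (C : Circuit ι) {f dd : ℕ} (hd : C.FanIn f dd) (x : ι → Bool) :
    C.pot x + dd ≤ dd * 2 ^ C.numOther := RW.pot_bound x C.gates hd []

theorem Circuit.numTests_le (C : Circuit ι) {f dd : ℕ} (hd : C.FanIn f dd) :
    C.numTests ≤ dd * C.size := by
  unfold Circuit.numTests Circuit.size
  have h1 := List.sum_le_card_nsmul (C.gates.map (fun g => g.tests.length)) dd (by
    intro v hv
    rw [List.mem_map] at hv
    obtain ⟨g, hg, rfl⟩ := hv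
    cases g with
    | mono args φ => simp [Gate.tests]
    | other tests φ => exact hd _ hg)
  rw [List.length_map, smul_eq_mul, mul_comm] at h1
  exact h1

end pot

section pre

variable {ι : Type*}

theorem getD_runGates_take (x : ι → Bool) (gs : List (Gate ι)) {j k : ℕ} (hk : k < j)
    (hj : j ≤ gs.length) :
    (runGates x (gs.take j)).getD k 0 = (runGates x gs).getD k 0 := by
  induction gs using List.reverseRecOn with
  | nil => simp
  | append_singleton gs g ih =>
    by_cases h : j ≤ gs.length
    · rw [List.take_append_of_le_length h, ih h, runGates_append,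
        getD_append_lt (by rw [length_runGates]; omega)]
    · have : (gs ++ [g]).take j = gs ++ [g] := by
        apply List.take_of_length_le
        simp only [List.length_append, List.length_singleton]
        omega
      rw [this]

/-- A gate with constant value. -/
def cGate (c : ℝ) : Gate ι := .mono [] (fun _ => c)

theorem cGate_eval (c : ℝ) (x : ι → Bool) (vals : List ℝ) :
    (cGate c : Gate ι).eval x vals = c := rfl

/-- Replace the gates of the second kind by the constants `b`. -/
def fixOther (b : ℕ → ℝ) : ℕ → List (Gate ι) → List (Gate ι)
  | _, [] => []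
  | k, g :: gs => (if g.isOther then cGate (b k) else g) :: fixOther b (k + 1) gs

theorem fixOther_append (b : ℕ → ℝ) (k : ℕ) (gs : List (Gate ι)) (g : Gate ι) :
    fixOther b k (gs ++ [g])
      = fixOther b k gs ++ [if g.isOther then cGate (b (k + gs.length)) else g] := by
  induction gs generalizing k with
  | nil => simp [fixOther]
  | cons h gs ih =>
    simp only [List.cons_append, fixOther, List.length_cons]
    rw [ih]
    have : k + 1 + gs.length = k + (gs.length + 1) := by omega
    rw [this]

theorem length_fixOther (b : ℕ → ℝ) (k : ℕ) (gs : List (Gate ι)) :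
    (fixOther b k gs).length = gs.length := by
  induction gs generalizing k with
  | nil => rfl
  | cons h gs ih => simp [fixOther, ih]

theorem fixOther_isMono {f d : ℕ} (b : ℕ → ℝ) (k : ℕ) (gs : List (Gate ι))
    (hfan : ∀ g ∈ gs, g.FanIn f d) : ∀ g ∈ fixOther b k gs, g.IsMono f := by
  induction gs generalizing k with
  | nil => simp [fixOther]
  | cons h gs ih =>
    intro g hg
    simp only [fixOther, List.mem_cons] at hg
    rcases hg with rfl | hg
    · split_ifs with h1
      · exact ⟨by simp, fun _ _ _ => le_rfl⟩
      · exact isMono_of_fanIn (hfan h (by simp)) (by simpa using h1)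
    · exact ih (k + 1) (fun g hg => hfan g (by simp [hg])) g hg

theorem runGates_fixOther (x y : ι → Bool) (gs : List (Gate ι))
    (h : ∀ (j : ℕ) (g : Gate ι), gs[j]? = some g → ∀ t ∈ g.tests,
      Test.eval x (runGates x (fixOther (fun k => (runGates y gs).getD k 0) 0 (gs.take j))) t
        = Test.eval y (runGates y (gs.take j)) t) :
    ∀ k ≤ gs.length, runGates x (gs.take k)
      = runGates x (fixOther (fun k => (runGates y gs).getD k 0) 0 (gs.take k)) := by
  intro k
  induction k with
  | zero => intro _; simp [fixOther]
  | succ k ih =>
    intro hk
    have hk' : k < gs.length := hk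
    have htake : gs.take (k + 1) = gs.take k ++ [gs[k]] := by
      rw [List.take_succ_eq_append_getElem hk']
    have hgk : gs[k]? = some gs[k] := List.getElem?_eq_getElem hk'
    have h1 := ih hk'.le
    rw [htake, fixOther_append, runGates_append, runGates_append, ← h1]
    congr 2
    have hlen : (gs.take k).length = k := by rw [List.length_take]; omega
    rw [hlen, Nat.zero_add]
    split_ifs with hoth
    · rw [cGate_eval]
      have h2 := h k gs[k] hgk
      rw [← h1] at h2
      have h3 : (runGates y gs).getD k 0 = gs[k].eval y (runGates y (gs.take k)) := by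
        have h4 := getD_runGates_take y gs (j := k + 1) (k := k) (by omega) hk
        rw [htake, runGates_append, getD_append_eq (by rw [length_runGates, hlen])] at h4
        exact h4.symm
      rw [h3]
      exact eval_eq_of_tests hoth h2
    · rfl

theorem runGates_fixOther2 (x y : ι → Bool) (gs : List (Gate ι))
    (h : ∀ (j : ℕ) (g : Gate ι), gs[j]? = some g → ∀ t ∈ g.tests,
      Test.eval x (runGates x (gs.take j)) t = Test.eval y (runGates y (gs.take j)) t) :
    ∀ k ≤ gs.length, runGates x (gs.take k)
      = runGates x (fixOther (fun k => (runGates y gs).getD k 0) 0 (gs.take k)) := by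
  intro k
  induction k with
  | zero => intro _; simp [fixOther]
  | succ k ih =>
    intro hk
    have hk' : k < gs.length := hk
    have htake : gs.take (k + 1) = gs.take k ++ [gs[k]] := by
      rw [List.take_succ_eq_append_getElem hk']
    have hgk : gs[k]? = some gs[k] := List.getElem?_eq_getElem hk'
    have h1 := ih hk'.le
    rw [htake, fixOther_append, runGates_append, runGates_append, ← h1]
    congr 2
    have hlen : (gs.take k).length = k := by rw [List.length_take]; omega
    rw [hlen, Nat.zero_add]
    split_ifs with hoth
    · rw [cGate_eval]
      have h3 : (runGates y gs).getD k 0 = gs[k].eval y (runGates y (gs.take k)) := by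
        have h4 := getD_runGates_take y gs (j := k + 1) (k := k) (by omega) hk
        rw [htake, runGates_append, getD_append_eq (by rw [length_runGates, hlen])] at h4
        exact h4.symm
      rw [h3]
      exact eval_eq_of_tests hoth (h k gs[k] hgk)
    · rfl

theorem reads_eq {C : Circuit ι} {x y : ι → Bool} (h : C.reads x = C.reads y) (j : ℕ)
    (g : Gate ι) (hg : C.gates[j]? = some g) : ∀ t ∈ g.tests,
      Test.eval x (runGates x (C.gates.take j)) t
        = Test.eval y (runGates y (C.gates.take j)) t := by
  intro a ha
  have hj : j < C.gates.length := by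
    by_contra hcon
    rw [List.getElem?_eq_none (by omega)] at hg
    exact absurd hg (by simp)
  unfold Circuit.reads at h
  have h1 := List.map_inj_left.1 h j (List.mem_range.2 hj)
  unfold Circuit.readsAt at h1
  rw [hg] at h1
  exact List.map_inj_left.1 h1 a ha

theorem runGates_fixOther_self (y : ι → Bool) (gs : List (Gate ι)) :
    ∀ k ≤ gs.length, runGates y (gs.take k)
      = runGates y (fixOther (fun k => (runGates y gs).getD k 0) 0 (gs.take k)) :=
  runGates_fixOther2 y y gs (fun _ _ _ _ _ => rfl)

theorem fixOther_take (b : ℕ → ℝ) (gs : List (Gate ι)) (j : ℕ) :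
    ∀ k, fixOther b k (gs.take j) = (fixOther b k gs).take j := by
  induction gs generalizing j with
  | nil => intro k; simp [fixOther]
  | cons g gs ih =>
    intro k
    cases j with
    | zero => simp [fixOther]
    | succ j =>
      simp only [List.take_succ_cons, fixOther]
      rw [ih]

theorem forall₂_getD {u v : List ℝ} (h : List.Forall₂ (· ≤ ·) u v) (j : ℕ) :
    u.getD j 0 ≤ v.getD j 0 := by
  induction h generalizing j with
  | nil => simp
  | cons hab _ ih =>
    cases j with
    | zero => simpa using hab
    | succ j =>
      simp only [List.getD_cons_succ]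
      exact ih j

open Classical in
/-- A gate which answers whether one of two tests is passed. -/
noncomputable def orGate (t t' : Test ι) : Gate ι :=
  .mono [t.1, t'.1] (fun l => if t.2 ≤ l.getD 0 0 ∨ t'.2 ≤ l.getD 1 0 then 1 else 0)

theorem orGate_isMono {f : ℕ} (hf : 2 ≤ f) (t t' : Test ι) : (orGate t t').IsMono f := by
  classical
  refine ⟨by simpa using hf, ?_⟩
  intro u v huv
  have h0 := forall₂_getD huv 0
  have h1 := forall₂_getD huv 1
  by_cases h : t.2 ≤ u.getD 0 0 ∨ t'.2 ≤ u.getD 1 0
  · have h' : t.2 ≤ v.getD 0 0 ∨ t'.2 ≤ v.getD 1 0 := by
      rcases h with h | h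
      · exact Or.inl (h.trans h0)
      · exact Or.inr (h.trans h1)
    simp only [if_pos h, if_pos h']
    exact le_rfl
  · simp only [if_neg h]
    split_ifs <;> norm_num

theorem orGate_eval (t t' : Test ι) (x : ι → Bool) (vals : List ℝ) :
    (1 : ℝ) ≤ (orGate t t').eval x vals ↔
      (Test.eval x vals t = true ∨ Test.eval x vals t' = true) := by
  classical
  simp only [orGate, Gate.eval, test_eval, List.map_cons, List.map_nil, List.getD_cons_zero,
    List.getD_cons_succ]
  split_ifs with h
  · simp only [le_refl, true_iff]
    exact h
  · constructor
    · intro h1; norm_num at h1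
    · intro h1; exact absurd h1 h

/-- Add OR gates. -/
theorem exists_or_circuit {f : ℕ} (hf : 2 ≤ f) (gs : List (Gate ι)) (hm : ∀ g ∈ gs, g.IsMono f)
    (ts : List (Test ι)) (hval : ∀ t ∈ ts, ∀ k, t.1 = .gate k → k < gs.length) :
    ∃ E : Circuit ι, (∀ g ∈ E.gates, g.IsMono f) ∧ E.size = gs.length + ts.length ∧
      (∃ tl, E.gates = gs ++ tl) ∧
      ∀ x, E.eval x = true ↔ ∃ t ∈ ts, Test.eval x (runGates x gs) t = true := by
  induction ts with
  | nil =>
    refine ⟨⟨gs, (.const 0, 1)⟩, hm, by simp [Circuit.size], ⟨[], by simp⟩, ?_⟩
    intro x
    unfold Circuit.eval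
    rw [test_eval]
    simp [Src.eval]
  | cons t ts ih =>
    obtain ⟨E, h1, h2, ⟨tl, h3⟩, h5⟩ := ih (fun b hb => hval b (by simp [hb]))
    refine ⟨⟨E.gates ++ [orGate t E.out], (.gate E.size, 1)⟩, ?_, ?_, ?_, ?_⟩
    · intro g hg
      simp only [List.mem_append, List.mem_singleton] at hg
      rcases hg with hg | rfl
      · exact h1 g hg
      · exact orGate_isMono hf _ _
    · have h2' : E.gates.length = gs.length + ts.length := h2
      simp only [Circuit.size, List.length_append, List.length_cons, List.length_nil]
      omega
    · refine ⟨tl ++ [orGate t E.out], ?_⟩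
      simp only
      rw [h3, List.append_assoc]
    · intro x
      have hlt : E.size = (runGates x E.gates).length := by rw [length_runGates]; rfl
      have h6 : (⟨E.gates ++ [orGate t E.out], (.gate E.size, 1)⟩ : Circuit ι).eval x = true ↔
          (Test.eval x (runGates x E.gates) t = true ∨ E.eval x = true) := by
        unfold Circuit.eval
        rw [test_eval]
        simp only [Src.eval]
        rw [runGates_append, getD_append_eq hlt, orGate_eval]
      have h7 : Test.eval x (runGates x E.gates) t = Test.eval x (runGates x gs) t := by
        have h8 : t.1.eval x (runGates x E.gates) = t.1.eval x (runGates x gs) := by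
          rcases hcase : t.1 with i | c | k
          · rfl
          · rfl
          · simp only [Src.eval]
            have hk := hval t (by simp) k hcase
            have h8 := getD_runGates_take x E.gates (j := gs.length) (k := k) hk
              (by rw [h3]; simp)
            rw [← h8, h3]
            simp
        unfold Test.eval
        rw [h8]
      rw [h6, h7, h5]
      simp

/-- A source that gate number `k` may read. -/
def Src.Valid : Src ι → ℕ → Bool
  | .input _, _ => true
  | .const _, _ => true
  | .gate j, k => decide (j < k)

/-- The tests of the gates of the second kind that have answer no for the values `vals`. -/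
noncomputable def detTests (y : ι → Bool) (vals : List ℝ) : ℕ → List (Gate ι) → List (Test ι)
  | _, [] => []
  | k, g :: gs => g.tests.filter (fun t => t.1.Valid k && !(Test.eval y vals t)) ++
      detTests y vals (k + 1) gs

theorem length_detTests (y : ι → Bool) (vals : List ℝ) (gs : List (Gate ι)) :
    ∀ k, (detTests y vals k gs).length ≤ (gs.map (fun g => g.tests.length)).sum := by
  induction gs with
  | nil => intro k; simp [detTests]
  | cons g gs ih =>
    intro k
    simp only [detTests, List.length_append, List.map_cons, List.sum_cons]
    have := ih (k + 1)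
    have h2 := List.length_filter_le (fun t => t.1.Valid k && !(Test.eval y vals t)) g.tests
    omega

theorem mem_detTests (y : ι → Bool) (vals : List ℝ) (gs : List (Gate ι)) (t : Test ι) :
    ∀ k, t ∈ detTests y vals k gs ↔
      ∃ j g, gs[j]? = some g ∧ t ∈ g.tests ∧ t.1.Valid (k + j) = true ∧
        Test.eval y vals t = false := by
  induction gs with
  | nil => intro k; simp [detTests]
  | cons g gs ih =>
    intro k
    simp only [detTests, List.mem_append, List.mem_filter, Bool.and_eq_true]
    rw [ih (k + 1)]
    constructor
    · rintro (⟨h1, h2, h3⟩ | ⟨j, g', h1, h2, h3, h4⟩)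
      · exact ⟨0, g, by simp, h1, h2, by simpa using h3⟩
      · refine ⟨j + 1, g', by simpa using h1, h2, ?_, h4⟩
        have : k + (j + 1) = k + 1 + j := by omega
        rw [this]
        exact h3
    · rintro ⟨j, g', h1, h2, h3, h4⟩
      cases j with
      | zero =>
        simp only [List.getElem?_cons_zero, Option.some.injEq] at h1
        subst h1
        exact Or.inl ⟨h2, h3, by simpa using h4⟩
      | succ j =>
        right
        refine ⟨j, g', by simpa using h1, h2, ?_, h4⟩
        have : k + 1 + j = k + (j + 1) := by omega
        rw [this]
        exact h3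

theorem Src.eval_invalid {a : Src ι} {k : ℕ} (h : a.Valid k = false) (x : ι → Bool)
    {vals : List ℝ} (hv : vals.length = k) : a.eval x vals = 0 := by
  cases a with
  | input i => simp [Src.Valid] at h
  | const b => simp [Src.Valid] at h
  | gate j =>
    simp only [Src.Valid, decide_eq_false_iff_not, not_lt] at h
    simp only [Src.eval]
    rw [List.getD_eq_default]
    omega

theorem test_invalid {t : Test ι} {k : ℕ} (h : t.1.Valid k = false) (x y : ι → Bool)
    {vals vals' : List ℝ} (hv : vals.length = k) (hv' : vals'.length = k) :
    Test.eval x vals t = Test.eval y vals' t := by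
  unfold Test.eval
  rw [Src.eval_invalid h x hv, Src.eval_invalid h y hv']

theorem Src.eval_take {a : Src ι} {k : ℕ} (h : a.Valid k = true) (x : ι → Bool)
    (gs : List (Gate ι)) (hk : k ≤ gs.length) :
    a.eval x (runGates x (gs.take k)) = a.eval x (runGates x gs) := by
  cases a with
  | input i => rfl
  | const b => rfl
  | gate j =>
    simp only [Src.Valid, decide_eq_true_eq] at h
    simp only [Src.eval]
    exact getD_runGates_take x gs h hk

theorem test_take {t : Test ι} {k : ℕ} (h : t.1.Valid k = true) (x : ι → Bool)
    (gs : List (Gate ι)) (hk : k ≤ gs.length) :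
    Test.eval x (runGates x (gs.take k)) t = Test.eval x (runGates x gs) t := by
  unfold Test.eval
  rw [Src.eval_take h x gs hk]

/-- A monotone circuit that detects a change of the answers to the tests or the acceptance. -/
theorem exists_detector {f d : ℕ} (hf : 2 ≤ f) (C : Circuit ι) (hC : C.FanIn f d)
    (y : ι → Bool) :
    ∃ E : Circuit ι, (∀ g ∈ E.gates, g.IsMono f) ∧ E.size ≤ C.size + C.numTests + 1 ∧
      (∀ x, (∀ i, y i = true → x i = true) → E.eval x = false →
        C.reads x = C.reads y ∧ C.eval x = false) ∧
      ∀ x, C.reads x = C.reads y → E.eval x = true → C.eval x = true := by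
  set gs := C.gates with hgs
  set b : ℕ → ℝ := fun k => (runGates y gs).getD k 0 with hb
  set gs' := fixOther b 0 gs with hgs'
  set out' : Test ι := if C.out.1.Valid gs.length then C.out else (.const 0, C.out.2) with hout
  set as : List (Test ι) := detTests y (runGates y gs) 0 gs ++ [out'] with has
  have hmono : ∀ g ∈ gs', g.IsMono f := fixOther_isMono b 0 gs hC
  have hlen' : gs'.length = gs.length := length_fixOther b 0 gs
  have hval : ∀ a ∈ as, ∀ k, a.1 = .gate k → k < gs'.length := by
    intro a ha k hk
    rw [has, List.mem_append] at ha
    rw [hlen']
    rcases ha with ha | ha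
    · rw [mem_detTests] at ha
      obtain ⟨j, g, h1, _, h3, _⟩ := ha
      rw [hk] at h3
      simp only [Src.Valid, decide_eq_true_eq, Nat.zero_add] at h3
      have : j < gs.length := by
        by_contra hcon
        rw [List.getElem?_eq_none (by omega)] at h1
        exact absurd h1 (by simp)
      omega
    · rw [List.mem_singleton] at ha
      rw [ha, hout] at hk
      by_cases h1 : C.out.1.Valid gs.length = true
      · rw [if_pos h1] at hk
        rw [hk] at h1
        simpa [Src.Valid] using h1
      · rw [if_neg h1] at hk
        exact absurd hk (by simp)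
  have houte : ∀ x : ι → Bool, Test.eval x (runGates x gs) out' = C.eval x := by
    intro x
    rw [hout]
    unfold Circuit.eval
    split_ifs with h1
    · rfl
    · have h2 := Src.eval_invalid (a := C.out.1) (k := gs.length) (by simpa using h1) x
        (length_runGates x gs)
      unfold Test.eval
      rw [h2]
      rfl
  obtain ⟨E, h1, h2, _, h5⟩ := exists_or_circuit hf gs' hmono as hval
  refine ⟨E, h1, ?_, ?_, ?_⟩
  · rw [h2, hlen', has, List.length_append]
    have h6 := length_detTests y (runGates y gs) gs 0
    unfold Circuit.size Circuit.numTests
    rw [← hgs, List.length_singleton]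
    omega
  · intro x hxy hE
    have hfalse : ∀ a ∈ as, Test.eval x (runGates x gs') a = false := by
      intro a ha
      by_contra hcon
      have : E.eval x = true := (h5 x).2 ⟨a, ha, by simpa using hcon⟩
      rw [hE] at this
      exact absurd this (by simp)
    have hself : ∀ k ≤ gs.length, runGates y (gs.take k) = runGates y (gs'.take k) := by
      intro k hk
      rw [hgs', ← fixOther_take]
      exact runGates_fixOther_self y gs k hk
    have hselffull : runGates y gs = runGates y gs' := by
      have := hself gs.length le_rfl
      rw [List.take_length] at this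
      rwa [List.take_of_length_le hlen'.le] at this
    have hargs : ∀ (j : ℕ) (g : Gate ι), gs[j]? = some g → ∀ a ∈ g.tests,
        Test.eval x (runGates x (gs'.take j)) a = Test.eval y (runGates y (gs.take j)) a := by
      intro j g hg a ha
      have hj : j < gs.length := by
        by_contra hcon
        rw [List.getElem?_eq_none (by omega)] at hg
        exact absurd hg (by simp)
      cases hv : a.1.Valid j with
      | false =>
        exact test_invalid hv x y (by rw [length_runGates, List.length_take]; omega)
          (by rw [length_runGates, List.length_take]; omega)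
      | true =>
        rw [test_take hv x gs' (by omega), test_take hv y gs hj.le]
        cases hy : Test.eval y (runGates y gs) a with
        | false =>
          apply hfalse
          rw [has, List.mem_append]
          left
          rw [mem_detTests]
          exact ⟨j, g, hg, ha, by rw [Nat.zero_add]; exact hv, hy⟩
        | true =>
          rw [hselffull] at hy
          exact test_mono hxy (runGates_mono hxy gs' hmono) a hy
    have hpre : ∀ k ≤ gs.length, runGates x (gs.take k) = runGates x (gs'.take k) := by
      intro k hk
      have := runGates_fixOther x y gs (by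
        intro j g hg a ha
        have h6 := hargs j g hg a ha
        rw [hgs', ← fixOther_take] at h6
        exact h6) k hk
      rw [this, fixOther_take]
    have hfull : runGates x gs = runGates x gs' := by
      have := hpre gs.length le_rfl
      rw [List.take_length] at this
      rwa [List.take_of_length_le hlen'.le] at this
    constructor
    · unfold Circuit.reads
      apply List.map_congr_left
      intro j hj
      rw [List.mem_range] at hj
      unfold Circuit.readsAt
      rw [← hgs]
      cases hg : gs[j]? with
      | none => rfl
      | some g =>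
        simp only
        apply List.map_congr_left
        intro a ha
        rw [hpre j hj.le]
        exact hargs j g hg a ha
    · rw [← houte x, hfull]
      apply hfalse
      rw [has, List.mem_append]
      right
      simp
  · intro x hreads hE
    have hread := reads_eq hreads
    rw [← hgs] at hread
    have hfull : runGates x gs = runGates x gs' := by
      have := runGates_fixOther2 x y gs hread gs.length le_rfl
      rwa [List.take_length] at this
    obtain ⟨a, ha, hae⟩ := (h5 x).1 hE
    rw [← hfull] at hae
    rw [has, List.mem_append] at ha
    rcases ha with ha | ha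
    · exfalso
      rw [mem_detTests] at ha
      obtain ⟨j, g, h6, h7, h8, h9⟩ := ha
      rw [Nat.zero_add] at h8
      have hj : j < gs.length := by
        by_contra hcon
        rw [List.getElem?_eq_none (by omega)] at h6
        exact absurd h6 (by simp)
      have h10 := hread j g h6 a h7
      rw [test_take h8 x gs hj.le, test_take h8 y gs hj.le, h9, hae] at h10
      exact absurd h10 (by simp)
    · rw [List.mem_singleton] at ha
      rw [ha, houte] at hae
      exact hae

end pre

end Pool.Agent.T9h35.RW
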