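import Pool.Agent.T9h35.RW.Defs
import Pool.Agent.T9h34.G.Chain

/-!
Basic facts on circuits with real-valued gates.
-/

set_option autoImplicit false

namespace Pool.Agent.T9h35.RW

open Finset
open Pool.Agent.T9h34 (chi pull)

section basic

variable {ι κ : Type*}

theorem runGates_append (x : ι → Bool) (gs : List (Gate ι)) (g : Gate ι) :
    runGates x (gs ++ [g]) = runGates x gs ++ [g.eval x (runGates x gs)] := by
  simp [runGates, List.foldl_append]

theorem length_runGates (x : ι → Bool) (gs : List (Gate ι)) :
    (runGates x gs).length = gs.length := by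
  induction gs using List.reverseRecOn with
  | nil => rfl
  | append_singleton gs g ih => rw [runGates_append]; simp [ih]

theorem getD_append_lt {l : List ℝ} {b : ℝ} {j : ℕ} (h : j < l.length) :
    (l ++ [b]).getD j 0 = l.getD j 0 := by
  rw [List.getD_append _ _ _ _ h]

theorem getD_append_eq {l : List ℝ} {b : ℝ} {j : ℕ} (h : j = l.length) :
    (l ++ [b]).getD j 0 = b := by
  subst h
  simp

/-- Gates of the first kind with a nondecreasing function. -/
def Gate.IsMono (f : ℕ) : Gate ι → Prop
  | .mono args φ => args.length ≤ f ∧ Nondecreasing φ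
  | .other _ _ => False

theorem test_eval {x : ι → Bool} {vals : List ℝ} {t : Test ι} :
    Test.eval x vals t = true ↔ t.2 ≤ t.1.eval x vals := by
  simp [Test.eval]

theorem Src.eval_mono {x y : ι → Bool} (hxy : ∀ i, x i = true → y i = true) {l l' : List ℝ}
    (hl : ∀ j, l.getD j 0 ≤ l'.getD j 0) (a : Src ι) : a.eval x l ≤ a.eval y l' := by
  cases a with
  | input i =>
    simp only [Src.eval]
    by_cases h : x i = true
    · rw [if_pos h, if_pos (hxy i h)]
    · rw [if_neg h]
      split_ifs <;> norm_num
  | const b => exact le_refl _
  | gate j => exact hl j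

theorem forall₂_map_le {α : Type*} (l : List α) (p q : α → ℝ) (h : ∀ a ∈ l, p a ≤ q a) :
    List.Forall₂ (· ≤ ·) (l.map p) (l.map q) := by
  induction l with
  | nil => simp
  | cons a l ih =>
    simp only [List.map_cons, List.forall₂_cons]
    exact ⟨h a (by simp), ih fun b hb => h b (by simp [hb])⟩

theorem runGates_mono {f : ℕ} {x y : ι → Bool} (hxy : ∀ i, x i = true → y i = true)
    (gs : List (Gate ι)) (hg : ∀ g ∈ gs, g.IsMono f) (j : ℕ) :
    (runGates x gs).getD j 0 ≤ (runGates y gs).getD j 0 := by
  induction gs using List.reverseRecOn generalizing j with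
  | nil => simp [runGates]
  | append_singleton gs g ih =>
    rw [runGates_append, runGates_append]
    have hgs : ∀ g ∈ gs, g.IsMono f := fun g' hg' => hg g' (by simp [hg'])
    rcases lt_trichotomy j gs.length with hj | hj | hj
    · rw [getD_append_lt (by rw [length_runGates]; exact hj),
        getD_append_lt (by rw [length_runGates]; exact hj)]
      exact ih hgs j
    · rw [getD_append_eq (by rw [length_runGates]; exact hj),
        getD_append_eq (by rw [length_runGates]; exact hj)]
      have hgm := hg g (by simp)
      cases g with
      | mono args φ =>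
        simp only [Gate.eval]
        apply hgm.2
        exact forall₂_map_le _ _ _ fun a _ => Src.eval_mono hxy (fun j => ih hgs j) a
      | other tests φ => exact absurd hgm (by simp [Gate.IsMono])
    · rw [List.getD_eq_default _ _ (by simp [length_runGates]; omega),
        List.getD_eq_default _ _ (by simp [length_runGates]; omega)]

theorem Circuit.eval_mono {f : ℕ} {x y : ι → Bool} (hxy : ∀ i, x i = true → y i = true)
    (C : Circuit ι) (hg : ∀ g ∈ C.gates, g.IsMono f) (h : C.eval x = true) : C.eval y = true := by
  unfold Circuit.eval at h ⊢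
  rw [test_eval] at h ⊢
  exact h.trans (Src.eval_mono hxy (runGates_mono hxy C.gates hg) _)

/-- Replace input variables by input variables or constants. -/
def Src.subst (σ : ι → κ ⊕ Bool) : Src ι → Src κ
  | .input i => match σ i with
    | .inl k => .input k
    | .inr b => .const (if b then 1 else 0)
  | .const b => .const b
  | .gate j => .gate j

/-- Replace input variables by input variables or constants. -/
def Gate.subst (σ : ι → κ ⊕ Bool) : Gate ι → Gate κ
  | .mono args φ => .mono (args.map (Src.subst σ)) φ
  | .other tests φ => .other (tests.map fun t => (t.1.subst σ, t.2)) φ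

/-- Replace input variables by input variables or constants. -/
def Circuit.subst (σ : ι → κ ⊕ Bool) (C : Circuit ι) : Circuit κ :=
  ⟨C.gates.map (Gate.subst σ), (C.out.1.subst σ, C.out.2)⟩

theorem Src.eval_subst (σ : ι → κ ⊕ Bool) (y : κ → Bool) (vals : List ℝ) (a : Src ι) :
    (a.subst σ).eval y vals = a.eval (pull σ y) vals := by
  cases a with
  | input i =>
    unfold Src.subst
    rcases h : σ i with k | b
    · simp [Src.eval, pull, h]
    · simp [Src.eval, pull, h]
  | const b => rfl
  | gate j => rfl

theorem Test.eval_subst (σ : ι → κ ⊕ Bool) (y : κ → Bool) (vals : List ℝ) (t : Test ι) :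
    Test.eval y vals ((t.1.subst σ, t.2) : Test κ) = Test.eval (pull σ y) vals t := by
  unfold Test.eval
  rw [Src.eval_subst]

theorem Gate.eval_subst (σ : ι → κ ⊕ Bool) (y : κ → Bool) (vals : List ℝ) (g : Gate ι) :
    (g.subst σ).eval y vals = g.eval (pull σ y) vals := by
  cases g with
  | mono args φ =>
    simp only [Gate.subst, Gate.eval, List.map_map]
    congr 1
    apply List.map_congr_left
    intro a _
    exact Src.eval_subst σ y vals a
  | other tests φ =>
    simp only [Gate.subst, Gate.eval, List.map_map]
    have : (List.map ((fun t => Test.eval y vals t) ∘ fun t : Test ι => (t.1.subst σ, t.2)) tests)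
        = tests.map (fun t => Test.eval (pull σ y) vals t) := by
      apply List.map_congr_left
      intro t _
      exact Test.eval_subst σ y vals t
    rw [this]

theorem runGates_subst (σ : ι → κ ⊕ Bool) (y : κ → Bool) (gs : List (Gate ι)) :
    runGates y (gs.map (Gate.subst σ)) = runGates (pull σ y) gs := by
  induction gs using List.reverseRecOn with
  | nil => rfl
  | append_singleton gs g ih =>
    rw [List.map_append, List.map_singleton, runGates_append, runGates_append, ih,
      Gate.eval_subst]

theorem Circuit.eval_subst (σ : ι → κ ⊕ Bool) (y : κ → Bool) (C : Circuit ι) :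
    (C.subst σ).eval y = C.eval (pull σ y) := by
  unfold Circuit.eval Circuit.subst
  rw [runGates_subst, Test.eval_subst]

theorem Circuit.size_subst (σ : ι → κ ⊕ Bool) (C : Circuit ι) : (C.subst σ).size = C.size := by
  simp [Circuit.size, Circuit.subst]

theorem Gate.isOther_subst (σ : ι → κ ⊕ Bool) (g : Gate ι) :
    (g.subst σ).isOther = g.isOther := by
  cases g <;> rfl

theorem Circuit.numOther_subst (σ : ι → κ ⊕ Bool) (C : Circuit ι) :
    (C.subst σ).numOther = C.numOther := by
  unfold Circuit.numOther Circuit.subst
  rw [List.countP_map]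
  congr 1
  funext g
  exact Gate.isOther_subst σ g

theorem Gate.fanIn_subst {f d : ℕ} (σ : ι → κ ⊕ Bool) (g : Gate ι) (h : g.FanIn f d) :
    (g.subst σ).FanIn f d := by
  cases g with
  | mono args φ => simpa [Gate.subst, Gate.FanIn] using h
  | other tests φ => simpa [Gate.subst, Gate.FanIn] using h

theorem Gate.isMono_subst {f : ℕ} (σ : ι → κ ⊕ Bool) (g : Gate ι) (h : g.IsMono f) :
    (g.subst σ).IsMono f := by
  cases g with
  | mono args φ => simpa [Gate.subst, Gate.IsMono] using h
  | other tests φ => exact absurd h (by simp [Gate.IsMono])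

theorem Circuit.fanIn_subst {f d : ℕ} (σ : ι → κ ⊕ Bool) (C : Circuit ι) (h : C.FanIn f d) :
    (C.subst σ).FanIn f d := by
  intro g hg
  simp only [Circuit.subst, List.mem_map] at hg
  obtain ⟨g', hg', rfl⟩ := hg
  exact Gate.fanIn_subst σ g' (h g' hg')

theorem runGates_split (x : ι → Bool) (pre post : List (Gate ι)) (g : Gate ι) :
    runGates x (pre ++ g :: post)
      = post.foldl (fun vals g => vals ++ [g.eval x vals])
          (runGates x pre ++ [g.eval x (runGates x pre)]) := by
  simp [runGates, List.foldl_append]

/-- The gate with constant value `b`. -/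
def constGate (b : Bool) : Gate ι := .mono [] (fun _ => if b then 1 else 0)

theorem constGate_eval (b : Bool) (x : ι → Bool) (vals : List ℝ) :
    (constGate b : Gate ι).eval x vals = if b then 1 else 0 := rfl

theorem constGate_fanIn (f d : ℕ) (b : Bool) : (constGate b : Gate ι).FanIn f d :=
  ⟨by simp, fun _ _ _ => le_refl _⟩

theorem exists_first_other {f d : ℕ} (gs : List (Gate ι)) (hfan : ∀ g ∈ gs, g.FanIn f d)
    (h : 0 < gs.countP Gate.isOther) :
    ∃ pre tests φ post, gs = pre ++ Gate.other tests φ :: post ∧ ∀ g ∈ pre, g.IsMono f := by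
  induction gs with
  | nil => simp at h
  | cons g gs ih =>
    cases g with
    | mono args φ =>
      rw [List.countP_cons_of_neg (by simp [Gate.isOther])] at h
      obtain ⟨pre, tests, φ', post, h1, h2⟩ := ih (fun g hg => hfan g (by simp [hg])) h
      refine ⟨.mono args φ :: pre, tests, φ', post, by rw [h1]; rfl, ?_⟩
      intro g hg
      rcases List.mem_cons.1 hg with rfl | hg
      · exact hfan (Gate.mono args φ) (by simp)
      · exact h2 g hg
    | other tests φ => exact ⟨[], tests, φ, gs, rfl, by simp⟩

theorem isMono_of_countP {f d : ℕ} (gs : List (Gate ι)) (hfan : ∀ g ∈ gs, g.FanIn f d)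
    (h : gs.countP Gate.isOther = 0) : ∀ g ∈ gs, g.IsMono f := by
  intro g hg
  rw [List.countP_eq_zero] at h
  have h1 := h g hg
  cases g with
  | mono args φ => exact hfan _ hg
  | other tests φ => simp [Gate.isOther] at h1

end basic

end Pool.Agent.T9h35.RW
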