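import Pool.Agent.T9h35.RW.Greedy
import Pool.Agent.T9h35.RW.Basic
import Pool.Agent.T9h35.Wide.Approx

/-!
Closed approximators for circuits of nondecreasing real gates of large fan-in.
-/

set_option autoImplicit false

namespace Pool.Agent.T9h35.RW

open Finset
open Pool.Agent.T9h34 (ind ind_of ind_not ind_nonneg ind_le_one ind_mono ind_or_le cov cov_mono
  smalls mem_smalls Ev Ev_mono Ev_add Ev_const_mul Spread chi pull)
open Pool.Agent.T9h35.Wide (closed_empty closed_smalls exists_inputs)

variable {X : Type*} [Fintype X] [DecidableEq X] {Ω : Type*} [Fintype Ω] {N : T9h34.G.NoiseOp X}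

open Classical in
/-- The chain attached to a source. -/
noncomputable def sFam (c : ℕ) (I : X → Finset (Finset X)) (𝒜 : ℕ → ℝ → Finset (Finset X))
    (n : ℕ) : Src X → ℝ → Finset (Finset X)
  | .input i => fun θ => if θ ≤ 0 then smalls c else if θ ≤ 1 then I i else ∅
  | .const b => fun θ => if θ ≤ b then smalls c else ∅
  | .gate j => fun θ => if j < n then 𝒜 j θ else if θ ≤ 0 then smalls c else ∅

theorem chain_of_const {L c : ℕ} (b : ℝ) :
    Chain N L c (fun θ => by classical exact if θ ≤ b then smalls c else ∅) := by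
  classical
  refine ⟨?_, ?_, ?_⟩
  · intro x y hxy
    by_cases hy : y ≤ b
    · simp only [if_pos hy, if_pos (hxy.trans hy)]
      exact le_refl _
    · simp only [if_neg hy]
      exact Finset.empty_subset _
  · intro θ
    by_cases h : θ ≤ b
    · simp only [if_pos h]; exact closed_smalls
    · simp only [if_neg h]; exact closed_empty
  · intro θ
    by_cases h : θ ≤ b
    · simp only [if_pos h]; exact le_refl _
    · simp only [if_neg h]; exact Finset.empty_subset _

theorem sFam_chain {L c n : ℕ} {I : X → Finset (Finset X)} {𝒜 : ℕ → ℝ → Finset (Finset X)}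
    (hI : ∀ i, T9h34.G.Closed N L c (I i) ∧ I i ⊆ smalls c)
    (h𝒜 : ∀ j, Chain N L c (𝒜 j)) (a : Src X) : Chain N L c (sFam c I 𝒜 n a) := by
  classical
  cases a with
  | input i =>
    refine ⟨?_, ?_, ?_⟩
    · intro x y hxy
      simp only [sFam]
      by_cases hx : x ≤ 0
      · rw [if_pos hx]
        split_ifs
        · exact le_refl _
        · exact (hI i).2
        · exact Finset.empty_subset _
      · rw [if_neg hx, if_neg (by intro h; exact hx (hxy.trans h))]
        by_cases hy1 : y ≤ 1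
        · rw [if_pos hy1, if_pos (hxy.trans hy1)]
        · rw [if_neg hy1]
          exact Finset.empty_subset _
    · intro θ
      simp only [sFam]
      split_ifs
      · exact closed_smalls
      · exact (hI i).1
      · exact closed_empty
    · intro θ
      simp only [sFam]
      split_ifs
      · exact le_refl _
      · exact (hI i).2
      · exact Finset.empty_subset _
  | const b =>
    have h := chain_of_const (N := N) (L := L) (c := c) b
    refine ⟨fun x y hxy => ?_, fun θ => ?_, fun θ => ?_⟩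
    · simpa [sFam] using h.anti x y hxy
    · simpa [sFam] using h.closed θ
    · simpa [sFam] using h.small θ
  | gate j =>
    by_cases hj : j < n
    · have h := h𝒜 j
      refine ⟨fun x y hxy => ?_, fun θ => ?_, fun θ => ?_⟩
      · simpa [sFam, hj] using h.anti x y hxy
      · simpa [sFam, hj] using h.closed θ
      · simpa [sFam, hj] using h.small θ
    · have h := chain_of_const (N := N) (L := L) (c := c) 0
      refine ⟨fun x y hxy => ?_, fun θ => ?_, fun θ => ?_⟩
      · simpa [sFam, hj] using h.anti x y hxy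
      · simpa [sFam, hj] using h.closed θ
      · simpa [sFam, hj] using h.small θ

theorem cov_smalls {c : ℕ} (Z : Finset X) : cov (smalls (X := X) c) Z :=
  ⟨∅, by simp [mem_smalls], Finset.empty_subset _⟩

theorem not_cov_empty (Z : Finset X) : ¬ cov (∅ : Finset (Finset X)) Z := by
  rintro ⟨S, hS, _⟩
  simp at hS

theorem sFam_pos {c n : ℕ} {I : X → Finset (Finset X)} {𝒜 : ℕ → ℝ → Finset (Finset X)}
    (hI : ∀ i, {i} ∈ I i) {vals : List ℝ} {Z : Finset X}
    (hlen : vals.length = n) (h : ∀ j < n, ∀ θ, θ ≤ vals.getD j 0 → cov (𝒜 j θ) Z) (a : Src X)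
    (θ : ℝ) (ha : θ ≤ a.eval (chi Z) vals) : cov (sFam c I 𝒜 n a θ) Z := by
  classical
  cases a with
  | input i =>
    simp only [Src.eval, chi] at ha
    simp only [sFam]
    by_cases hθ : θ ≤ 0
    · rw [if_pos hθ]
      exact cov_smalls Z
    · rw [if_neg hθ]
      by_cases hi : i ∈ Z
      · rw [if_pos (by simpa using hi)] at ha
        rw [if_pos ha]
        exact ⟨{i}, hI i, by simpa using hi⟩
      · rw [if_neg (by simpa using hi)] at ha
        exact absurd ha hθ
  | const b =>
    simp only [Src.eval] at ha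
    simp only [sFam]
    rw [if_pos ha]
    exact cov_smalls Z
  | gate j =>
    simp only [Src.eval] at ha
    simp only [sFam]
    by_cases hj : j < n
    · rw [if_pos hj]
      exact h j hj θ ha
    · rw [if_neg hj]
      rw [List.getD_eq_default _ _ (by omega)] at ha
      rw [if_pos ha]
      exact cov_smalls Z

theorem sFam_neg {c n : ℕ} {I : X → Finset (Finset X)} {𝒜 : ℕ → ℝ → Finset (Finset X)}
    {vals : List ℝ} {Z : Finset X} (hlen : vals.length = n) (hI : ∀ i, cov (I i) Z → i ∈ Z)
    (h : ∀ j < n, ∀ θ, cov (𝒜 j θ) Z → θ ≤ vals.getD j 0) (a : Src X) (θ : ℝ)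
    (ha : cov (sFam c I 𝒜 n a θ) Z) : θ ≤ a.eval (chi Z) vals := by
  classical
  cases a with
  | input i =>
    simp only [Src.eval, chi]
    simp only [sFam] at ha
    by_cases hθ : θ ≤ 0
    · refine hθ.trans ?_
      split_ifs <;> norm_num
    · rw [if_neg hθ] at ha
      by_cases hθ1 : θ ≤ 1
      · rw [if_pos hθ1] at ha
        rw [if_pos (by simpa using hI i ha)]
        exact hθ1
      · rw [if_neg hθ1] at ha
        exact absurd ha (not_cov_empty Z)
  | const b =>
    simp only [Src.eval]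
    simp only [sFam] at ha
    by_cases hθ : θ ≤ b
    · exact hθ
    · rw [if_neg hθ] at ha
      exact absurd ha (not_cov_empty Z)
  | gate j =>
    simp only [Src.eval]
    simp only [sFam] at ha
    by_cases hj : j < n
    · rw [if_pos hj] at ha
      exact h j hj θ ha
    · rw [if_neg hj] at ha
      rw [List.getD_eq_default _ _ (by omega)]
      by_cases hθ : θ ≤ 0
      · exact hθ
      · rw [if_neg hθ] at ha
        exact absurd ha (not_cov_empty Z)

open Classical in
/-- The chain attached to a gate, before closing. -/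
noncomputable def gFam (c : ℕ) (I : X → Finset (Finset X)) (𝒜 : ℕ → ℝ → Finset (Finset X))
    (n : ℕ) (args : List (Src X)) (φ : List ℝ → ℝ) (θ : ℝ) : Finset (Finset X) :=
  (smalls c).filter (fun S => ∃ r : List ℝ,
    List.Forall₂ (fun a ρ => S ∈ sFam c I 𝒜 n a ρ) args r ∧ θ ≤ φ r)

theorem mem_gFam {c n : ℕ} {I : X → Finset (Finset X)} {𝒜 : ℕ → ℝ → Finset (Finset X)}
    {args : List (Src X)} {φ : List ℝ → ℝ} {θ : ℝ} {S : Finset X} :
    S ∈ gFam c I 𝒜 n args φ θ ↔ S.card ≤ c ∧ ∃ r : List ℝ,
      List.Forall₂ (fun a ρ => S ∈ sFam c I 𝒜 n a ρ) args r ∧ θ ≤ φ r := by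
  classical
  unfold gFam
  rw [Finset.mem_filter, mem_smalls]

theorem gFam_sub {c n : ℕ} {I : X → Finset (Finset X)} {𝒜 : ℕ → ℝ → Finset (Finset X)}
    {args : List (Src X)} {φ : List ℝ → ℝ} (θ : ℝ) :
    gFam c I 𝒜 n args φ θ ⊆ smalls c := by
  intro S hS
  exact mem_smalls.2 (mem_gFam.1 hS).1

theorem gFam_anti {c n : ℕ} {I : X → Finset (Finset X)} {𝒜 : ℕ → ℝ → Finset (Finset X)}
    {args : List (Src X)} {φ : List ℝ → ℝ} (a b : ℝ) (hab : a ≤ b) :
    gFam c I 𝒜 n args φ b ⊆ gFam c I 𝒜 n args φ a := by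
  intro S hS
  rw [mem_gFam] at hS ⊢
  obtain ⟨h1, r, h2, h3⟩ := hS
  exact ⟨h1, r, h2, hab.trans h3⟩

theorem gFam_pos {c n : ℕ} {I : X → Finset (Finset X)} {𝒜 : ℕ → ℝ → Finset (Finset X)}
    (hI : ∀ i, {i} ∈ I i) {vals : List ℝ} {Z : Finset X}
    (hlen : vals.length = n) (h : ∀ j < n, ∀ θ, θ ≤ vals.getD j 0 → cov (𝒜 j θ) Z)
    (args : List (Src X)) (φ : List ℝ → ℝ) (θ : ℝ)
    (ha : θ ≤ φ (args.map fun a => a.eval (chi Z) vals))
    (hgood : ¬ RBad c (args.map (sFam c I 𝒜 n)) ∅ Z) : cov (gFam c I 𝒜 n args φ θ) Z := by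
  unfold RBad at hgood
  push Not at hgood
  obtain ⟨S, _, hSZ, hSc, hS⟩ := hgood (Finset.empty_subset _)
    (args.map fun a => a.eval (chi Z) vals) (by
      rw [List.forall₂_map_left_iff, List.forall₂_map_right_iff, List.forall₂_same]
      intro a _
      exact sFam_pos hI hlen h a _ (le_refl _))
  refine ⟨S, ?_, hSZ⟩
  rw [mem_gFam]
  refine ⟨hSc, _, ?_, ha⟩
  rw [List.forall₂_map_left_iff] at hS
  exact hS

theorem gFam_neg {c n : ℕ} {I : X → Finset (Finset X)} {𝒜 : ℕ → ℝ → Finset (Finset X)}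
    {vals : List ℝ} {Z : Finset X} (hlen : vals.length = n) (hI : ∀ i, cov (I i) Z → i ∈ Z)
    (h : ∀ j < n, ∀ θ, cov (𝒜 j θ) Z → θ ≤ vals.getD j 0)
    (args : List (Src X)) (φ : List ℝ → ℝ) (hφ : Nondecreasing φ) (θ : ℝ)
    (ha : cov (gFam c I 𝒜 n args φ θ) Z) : θ ≤ φ (args.map fun a => a.eval (chi Z) vals) := by
  obtain ⟨S, hS, hSZ⟩ := ha
  rw [mem_gFam] at hS
  obtain ⟨_, r, hr, hθ⟩ := hS
  refine hθ.trans (hφ _ _ ?_)
  rw [List.forall₂_map_right_iff]
  refine List.Forall₂.flip ?_
  refine hr.imp fun a ρ hS => ?_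
  exact sFam_neg hlen hI h a ρ ⟨S, hS, hSZ⟩

/-- The hypotheses on the parameters. -/
structure Hyp (N : T9h34.G.NoiseOp X) (v : Ω → Finset X) (L c f : ℕ) (B κ : ℝ) : Prop where
  hL : 0 < L
  hc : 1 ≤ c
  hB1 : 1 ≤ B
  hcov : T9h34.G.Covers N c B
  hκ : 0 ≤ κ
  hsp : Spread v (2 * c) κ
  hBκ : 32 * (B * κ) ≤ 1
  hf : 48 * (B * κ * f) ≤ c

/-- The negative error per gate. -/
noncomputable def del (X : Type*) [Fintype X] [DecidableEq X] (L c : ℕ) : ℝ :=
  (((smalls (X := X) c).card : ℝ) + 1) * (((smalls (X := X) c).card : ℝ) * (1 / 2 : ℝ) ^ L)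

theorem del_nonneg {L c : ℕ} : 0 ≤ del X L c := by
  unfold del
  positivity

variable {L c f : ℕ} {B κ : ℝ} {v : Ω → Finset X}

theorem approx_gates (H : Hyp N v L c f B κ) (I : X → Finset (Finset X))
    (hI1 : ∀ i, {i} ∈ I i) (hI2 : ∀ i, T9h34.G.Closed N L c (I i) ∧ I i ⊆ smalls c)
    (gs : List (Gate X)) (hm : ∀ g ∈ gs, g.IsMono f) :
    ∃ 𝒜 : ℕ → ℝ → Finset (Finset X), (∀ j, Chain N L c (𝒜 j)) ∧
      Ev v (fun Z => ind (∃ j < gs.length, ∃ θ,
        θ ≤ (runGates (chi Z) gs).getD j 0 ∧ ¬ cov (𝒜 j θ) Z))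
          ≤ gs.length * (1 / 2 : ℝ) ^ c ∧
      ∀ T : Finset X, N.iter L (fun W => ind ((∀ i, cov (I i) (T ∪ W) → i ∈ T ∪ W) ∧
        ∃ j < gs.length, ∃ θ, cov (𝒜 j θ) (T ∪ W) ∧
          ¬ θ ≤ (runGates (chi (T ∪ W)) gs).getD j 0))
          ≤ gs.length * del X L c := by
  induction gs using List.reverseRecOn with
  | nil =>
    refine ⟨fun _ _ => ∅, fun _ => ⟨fun _ _ _ => le_refl _, fun _ => closed_empty,
      fun _ => by simp⟩, ?_, ?_⟩
    · have : (fun Z : Finset X => ind (∃ j < ([] : List (Gate X)).length, ∃ θ,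
          θ ≤ (runGates (chi Z) []).getD j 0 ∧ ¬ cov (∅ : Finset (Finset X)) Z))
          = fun _ => (0 : ℝ) * 1 := by
        funext Z
        rw [ind_not (by simp)]; ring
      rw [this, Ev_const_mul]
      simp
    · intro T
      have : (fun W : Finset X => ind ((∀ i, cov (I i) (T ∪ W) → i ∈ T ∪ W) ∧
          ∃ j < ([] : List (Gate X)).length, ∃ θ,
          cov (∅ : Finset (Finset X)) (T ∪ W) ∧
            ¬ θ ≤ (runGates (chi (T ∪ W)) []).getD j 0))
          = fun _ => (0 : ℝ) := by
        funext Z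
        rw [ind_not (by simp)]
      rw [this, N.iter_const]
      simp
  | append_singleton gs g ih =>
    have hgs : ∀ g ∈ gs, g.IsMono f := fun g' hg' => hm g' (by simp [hg'])
    have hg : g.IsMono f := hm g (by simp)
    obtain ⟨𝒜, h1, h2, h3⟩ := ih hgs
    cases g with
    | other tests φ => exact absurd hg (by simp [Gate.IsMono])
    | mono args φ =>
    obtain ⟨hargs, hφ⟩ := hg
    set F : ℝ → Finset (Finset X) := gFam c I 𝒜 gs.length args φ with hF
    have hFsub : ∀ θ, F θ ⊆ smalls c := fun θ => gFam_sub θ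
    have hFanti : ∀ a b : ℝ, a ≤ b → F b ⊆ F a := fun a b hab => gFam_anti a b hab
    refine ⟨fun j => if j = gs.length then fun θ => cl N L c (F θ) else 𝒜 j, ?_, ?_, ?_⟩
    · intro j
      by_cases hj : j = gs.length
      · simp only [if_pos hj]
        exact ⟨fun a b hab => cl_mono (hFanti a b hab), fun θ => cl_closed, fun θ => cl_sub⟩
      · simp only [if_neg hj]
        exact h1 j
    · have hpt : ∀ Z : Finset X, ind (∃ j < (gs ++ [Gate.mono args φ]).length, ∃ θ,
          θ ≤ (runGates (chi Z) (gs ++ [Gate.mono args φ])).getD j 0 ∧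
            ¬ cov ((if j = gs.length then fun θ => cl N L c (F θ) else 𝒜 j) θ) Z)
          ≤ ind (∃ j < gs.length, ∃ θ, θ ≤ (runGates (chi Z) gs).getD j 0 ∧ ¬ cov (𝒜 j θ) Z)
            + ind (RBad c (args.map (sFam c I 𝒜 gs.length)) ∅ Z) := by
        intro Z
        refine le_trans (ind_mono ?_) (ind_or_le _ _)
        rintro ⟨j, hj, θ, hv, hnc⟩
        by_cases hbad : ∃ j < gs.length, ∃ θ,
            θ ≤ (runGates (chi Z) gs).getD j 0 ∧ ¬ cov (𝒜 j θ) Z
        · exact Or.inl hbad
        · right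
          push Not at hbad
          rw [runGates_append] at hv
          have hlen : (gs ++ [Gate.mono args φ]).length = gs.length + 1 := by simp
          rw [hlen] at hj
          rcases lt_or_eq_of_le (Nat.lt_succ_iff.1 hj) with hj' | hj'
          · rw [getD_append_lt (by rw [length_runGates]; exact hj')] at hv
            rw [if_neg (by omega)] at hnc
            exact absurd (hbad j hj' θ hv) hnc
          · rw [getD_append_eq (by rw [length_runGates]; exact hj')] at hv
            rw [if_pos hj'] at hnc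
            by_contra hgood
            apply hnc
            exact cov_mono (sub_cl (hFsub θ)) (le_refl _)
              (gFam_pos hI1 (length_runGates (chi Z) gs) hbad args φ θ hv hgood)
      refine le_trans (Ev_mono v hpt) ?_
      rw [Ev_add]
      have h4 := Ev_rbad_small H.hL H.hB1 H.hcov v H.hκ H.hsp H.hBκ H.hf
        (args.map (sFam c I 𝒜 gs.length))
        (by
          intro F' hF'
          obtain ⟨a, _, rfl⟩ := List.mem_map.1 hF'
          exact sFam_chain hI2 h1 a)
        (by rw [List.length_map]; exact hargs)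
      have hlen : ((gs ++ [Gate.mono args φ]).length : ℝ) = gs.length + 1 := by simp
      rw [hlen]
      linarith
    · intro T
      have hpt : ∀ W : Finset X, ind ((∀ i, cov (I i) (T ∪ W) → i ∈ T ∪ W) ∧
          ∃ j < (gs ++ [Gate.mono args φ]).length, ∃ θ,
          cov ((if j = gs.length then fun θ => cl N L c (F θ) else 𝒜 j) θ) (T ∪ W) ∧
          ¬ θ ≤ (runGates (chi (T ∪ W)) (gs ++ [Gate.mono args φ])).getD j 0)
          ≤ ind ((∀ i, cov (I i) (T ∪ W) → i ∈ T ∪ W) ∧
              ∃ j < gs.length, ∃ θ, cov (𝒜 j θ) (T ∪ W) ∧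
              ¬ θ ≤ (runGates (chi (T ∪ W)) gs).getD j 0)
            + ind (∃ θ, cov (cl N L c (F θ)) (T ∪ W) ∧ ¬ cov (F θ) (T ∪ W)) := by
        intro W
        refine le_trans (ind_mono ?_) (ind_or_le _ _)
        rintro ⟨hin, j, hj, θ, hcv, hv⟩
        by_cases hbad : ∃ j < gs.length, ∃ θ, cov (𝒜 j θ) (T ∪ W) ∧
            ¬ θ ≤ (runGates (chi (T ∪ W)) gs).getD j 0
        · exact Or.inl ⟨hin, hbad⟩
        · right
          have hbad' : ∀ j < gs.length, ∀ θ, cov (𝒜 j θ) (T ∪ W) →
              θ ≤ (runGates (chi (T ∪ W)) gs).getD j 0 := by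
            intro j hj θ hc
            by_contra hcon
            exact hbad ⟨j, hj, θ, hc, hcon⟩
          rw [runGates_append] at hv
          have hlen : (gs ++ [Gate.mono args φ]).length = gs.length + 1 := by simp
          rw [hlen] at hj
          rcases lt_or_eq_of_le (Nat.lt_succ_iff.1 hj) with hj' | hj'
          · rw [getD_append_lt (by rw [length_runGates]; exact hj')] at hv
            rw [if_neg (by omega)] at hcv
            exact absurd (hbad' j hj' θ hcv) hv
          · rw [getD_append_eq (by rw [length_runGates]; exact hj')] at hv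
            rw [if_pos hj'] at hcv
            refine ⟨θ, hcv, ?_⟩
            intro hFθ
            exact hv (gFam_neg (length_runGates _ _) hin hbad' args φ hφ θ hFθ)
      refine le_trans (N.iter_mono L hpt) ?_
      rw [N.iter_add]
      have h4 := h3 T
      have h5 := chain_err (N := N) (L := L) hFanti hFsub T
      have hlen : ((gs ++ [Gate.mono args φ]).length : ℝ) = gs.length + 1 := by simp
      rw [hlen]
      unfold del at h4 ⊢
      linarith

/-- **Domination lemma.** If a circuit of nondecreasing real gates of fan-in at most `f` accepts a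
spread random set with some probability, then it accepts the noise with a comparable probability,
up to an error proportional to its size. -/
theorem domination (H : Hyp N v L c f B κ) (C : Circuit X) (hm : ∀ g ∈ C.gates, g.IsMono f) :
    Ev v (fun Z => ind (C.eval (chi Z) = true))
      ≤ 3 * N.iter (L + 1) (fun U => ind (C.eval (chi U) = true))
        + (C.size * (1 / 2 : ℝ) ^ c + 3 * ((C.size + Fintype.card X) * del X L c)) := by
  obtain ⟨I, hI1, hI2, hI3⟩ := exists_inputs N L H.hc
  obtain ⟨𝒜, h1, h2, h3⟩ := approx_gates H I hI1 hI2 C.gates hm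
  set n := C.gates.length with hn
  set 𝒞 := sFam c I 𝒜 n C.out.1 C.out.2 with h𝒞
  have hch := sFam_chain (n := n) hI2 h1 C.out.1
  have hc3 : T9h34.G.Closed N L c 𝒞 := hch.closed _
  have hc2 : 𝒞 ⊆ smalls c := hch.small _
  set δ := del X L c with hδ
  have hδ0 : 0 ≤ δ := del_nonneg
  have hδ1 : ((smalls (X := X) c).card : ℝ) * (1 / 2 : ℝ) ^ L ≤ δ := by
    rw [hδ]
    unfold del
    have h4 : (0 : ℝ) ≤ ((smalls (X := X) c).card : ℝ) * (1 / 2 : ℝ) ^ L := by positivity
    have h5 : (0 : ℝ) ≤ ((smalls (X := X) c).card : ℝ) := by positivity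
    nlinarith
  -- positive side
  have hpos : Ev v (fun Z => ind (C.eval (chi Z) = true))
      ≤ n * (1 / 2 : ℝ) ^ c + Ev v (fun Z => ind (cov 𝒞 Z)) := by
    have hpt : ∀ Z : Finset X, ind (C.eval (chi Z) = true)
        ≤ ind (∃ j < C.gates.length, ∃ θ,
            θ ≤ (runGates (chi Z) C.gates).getD j 0 ∧ ¬ cov (𝒜 j θ) Z)
          + ind (cov 𝒞 Z) := by
      intro Z
      refine le_trans (ind_mono ?_) (ind_or_le _ _)
      intro hv
      by_cases hbad : ∃ j < C.gates.length, ∃ θ,
          θ ≤ (runGates (chi Z) C.gates).getD j 0 ∧ ¬ cov (𝒜 j θ) Z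
      · exact Or.inl hbad
      · right
        push Not at hbad
        unfold Circuit.eval at hv
        rw [test_eval] at hv
        exact sFam_pos hI1 (length_runGates _ _) hbad C.out.1 _ hv
    refine le_trans (Ev_mono v hpt) ?_
    rw [Ev_add]
    linarith
  -- negative side
  have hneg : ∀ z : Finset X, ind (cov 𝒞 z) ≤
      N.iter L (fun W => ind (C.eval (chi (z ∪ W)) = true)) + (n + Fintype.card X) * δ := by
    intro z
    by_cases hz : cov 𝒞 z
    · rw [ind_of hz]
      have hpt : ∀ W : Finset X, (1 : ℝ) ≤ ind (C.eval (chi (z ∪ W)) = true)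
          + (ind ((∀ i, cov (I i) (z ∪ W) → i ∈ z ∪ W) ∧
              ∃ j < C.gates.length, ∃ θ, cov (𝒜 j θ) (z ∪ W) ∧
              ¬ θ ≤ (runGates (chi (z ∪ W)) C.gates).getD j 0)
            + ind (∃ i, cov (I i) (z ∪ W) ∧ i ∉ z ∪ W)) := by
        intro W
        have p1 := ind_nonneg (C.eval (chi (z ∪ W)) = true)
        have p2 := ind_nonneg ((∀ i, cov (I i) (z ∪ W) → i ∈ z ∪ W) ∧
              ∃ j < C.gates.length, ∃ θ, cov (𝒜 j θ) (z ∪ W) ∧
              ¬ θ ≤ (runGates (chi (z ∪ W)) C.gates).getD j 0)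
        have p3 := ind_nonneg (∃ i, cov (I i) (z ∪ W) ∧ i ∉ z ∪ W)
        by_cases hin : ∃ i, cov (I i) (z ∪ W) ∧ i ∉ z ∪ W
        · rw [ind_of hin]
          linarith
        have hin' : ∀ i, cov (I i) (z ∪ W) → i ∈ z ∪ W := by
          intro i hi
          by_contra hc
          exact hin ⟨i, hi, hc⟩
        by_cases hbad : ∃ j < C.gates.length, ∃ θ, cov (𝒜 j θ) (z ∪ W) ∧
              ¬ θ ≤ (runGates (chi (z ∪ W)) C.gates).getD j 0
        · rw [ind_of (⟨hin', hbad⟩ : (∀ i, cov (I i) (z ∪ W) → i ∈ z ∪ W) ∧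
              ∃ j < C.gates.length, ∃ θ, cov (𝒜 j θ) (z ∪ W) ∧
              ¬ θ ≤ (runGates (chi (z ∪ W)) C.gates).getD j 0)]
          linarith
        · have hbad' : ∀ j < C.gates.length, ∀ θ, cov (𝒜 j θ) (z ∪ W) →
                θ ≤ (runGates (chi (z ∪ W)) C.gates).getD j 0 := by
            intro j hj θ hc
            by_contra hcon
            exact hbad ⟨j, hj, θ, hc, hcon⟩
          have hv : C.eval (chi (z ∪ W)) = true := by
            unfold Circuit.eval
            rw [test_eval]
            exact sFam_neg (length_runGates _ _) hin' hbad' C.out.1 _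
              (cov_mono (le_refl _) Finset.subset_union_left hz)
          rw [ind_of hv]
          linarith
      have h4 := N.iter_mono L hpt
      rw [N.iter_const, N.iter_add, N.iter_add] at h4
      have h5 := h3 z
      have h6 := hI3 z
      rw [← hn] at h4
      have h7 : ((n : ℝ) + Fintype.card X) * δ = n * δ + Fintype.card X * δ := by ring
      have h8 := mul_le_mul_of_nonneg_left hδ1 (Nat.cast_nonneg (α := ℝ) (Fintype.card X))
      rw [h7]
      linarith
    · rw [ind_not hz]
      have : 0 ≤ N.iter L (fun W => ind (C.eval (chi (z ∪ W)) = true)) :=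
        N.iter_nonneg L (fun W => ind_nonneg _)
      positivity
  have hneg' : N.E (fun z => ind (cov 𝒞 z))
      ≤ N.iter (L + 1) (fun U => ind (C.eval (chi U) = true)) + (n + Fintype.card X) * δ := by
    refine le_trans (N.mono hneg) ?_
    rw [N.add', N.const']
    simp only [T9h34.G.NoiseOp.iter]
    linarith
  have hsp' : Spread v c κ := fun T hT => H.hsp T (by omega)
  have hBκ' : B * κ ≤ 1 / 4 := by
    have := H.hBκ
    linarith
  have hcmp := T9h34.G.Ev_cov_le H.hL H.hB1 H.hcov hc3 hc2 v H.hκ hsp' hBκ'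
  have hsize : (C.size : ℝ) = n := by rw [hn]; rfl
  rw [hsize]
  linarith

end Pool.Agent.T9h35.RW
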