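import Pool.Agent.T9h34.S.AltCore
import Pool.Agent.T9h35.RW.Pot

set_option autoImplicit false

/-!
# Circuits with real gates that are correct on alternating slices

Real-valued version of `Pool.Agent.T9h34.S.AltCore` (by helper34).
-/

namespace Pool.Agent.T9h35.RW.Alt

open Finset
open Pool.Agent.T9h34 (Grp Vtx Ground wordSet card_wordSet chi pull graphInput)
open Pool.Agent.T9h34.S Pool.Agent.T9h34.S.Gr
open scoped Classical

variable {a b k m u d p : ℕ}

variable (S : T9h34.G.Row a b → Fin k → Fin m)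

/-- One phase. -/
theorem phase (hk : 0 < k) (ha : 0 < a) {n K l y z f dd : ℕ}
    (hK : K = Fintype.card (Grp a b k u))
    (ι : VV a b k u p d ≃ Fin n)
    (hard : ∀ C : RW.Circuit (Ground a b), (∀ g ∈ C.gates, g.IsMono f) → C.size < 2 ^ l →
        (∀ s, C.eval (chi (wordSet (T9h34.G.sparseCode S) s)) = true) →
        ∃ U : Finset (Ground a b), (¬ ∃ s, wordSet (T9h34.G.sparseCode S) s ⊆ U) ∧
          C.eval (chi U) = true)
    (hf : 2 ≤ f) (C : RW.Circuit (Fin n × Fin n)) (hCd : C.FanIn f dd)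
    (hs : C.size + C.numTests + 1 < 2 ^ l)
    (hpos : ∀ G : SimpleGraph (Fin n), G.edgeSet.ncard = y →
      (∃ c : Finset (Fin n), G.IsClique (c : Set (Fin n)) ∧ K ≤ c.card) →
        C.eval (graphInput G) = true)
    (hneg : ∀ G : SimpleGraph (Fin n), G.edgeSet.ncard = z →
      (¬ ∃ c : Finset (Fin n), G.IsClique (c : Set (Fin n)) ∧ K ≤ c.card) →
        ¬ C.eval (graphInput G) = true)
    (hyz : y + a * 2 ^ (2 * b) ≤ z)
    (hfull : ∀ Z : Finset (GGround a b p),
      z ≤ (Γ S ι Z (Hg a b k u p d (K - 1))).edgeSet.ncard)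
    (Y : Finset (GGround a b p)) (e : Fin p × Fin p) (hY : ∀ q ∈ Y, q.1 ≠ e)
    (hYw : ¬ HasWord S Y)
    (D : SimpleGraph (VV a b k u p d)) (hD : D ≤ Hg a b k u p d (K - 1))
    (hyD : (Γ S ι Y D).edgeSet.ncard + a = y) :
    ∃ (U : Finset (Ground a b)) (D' : SimpleGraph (VV a b k u p d)),
      D ≤ D' ∧ D' ≤ Hg a b k u p d (K - 1) ∧
      (Γ S ι (put Y e U) D').edgeSet.ncard = z ∧ ¬ HasWord S (put Y e U) ∧
      C.pot (graphInput (Γ S ι Y D)) < C.pot (graphInput (Γ S ι (put Y e U) D')) := by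
  have hcardG : Fintype.card (Grp a b k u) = a * 2 + (a * (2 * (b * k)) + u) := by
    simp only [Grp, Fintype.card_sum, Fintype.card_prod, Fintype.card_fin, Fintype.card_bool]
  have hX : Fintype.card (Ground a b) = a * 2 ^ (2 * b) := by
    simp [Ground, T9h34.Sym, ZMod.card]
  have hc : K - 1 + 1 = Fintype.card (Grp a b k u) := by omega
  obtain ⟨E, hE1, hE2, hE3, hE4⟩ := exists_detector hf C hCd (graphInput (Γ S ι Y D))
  have hev : ∀ U : Finset (Ground a b), ((E.subst (projW S ι D)).subst (sel Y e)).eval (chi U) =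
      E.eval (graphInput (Γ S ι (put Y e U) D)) := by
    intro U
    rw [RW.Circuit.eval_subst, pull_sel hY, RW.Circuit.eval_subst, pull_projW S ι hD]
  have hmono' : ∀ g ∈ ((E.subst (projW S ι D)).subst (sel Y e)).gates, g.IsMono f := by
    intro g hg
    simp only [RW.Circuit.subst, List.mem_map] at hg
    obtain ⟨g', ⟨g'', hg'', rfl⟩, rfl⟩ := hg
    exact Gate.isMono_subst _ _ (Gate.isMono_subst _ _ (hE1 g'' hg''))
  have hsub : ∀ U : Finset (Ground a b), Y ⊆ put Y e U := fun U => subset_union_left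
  obtain ⟨U, hU, hUE⟩ := hard _ hmono' (by
      rw [RW.Circuit.size_subst, RW.Circuit.size_subst]
      omega) (by
    intro s
    rw [hev]
    by_contra hcon
    have h1 := (hE3 (graphInput (Γ S ι (put Y e (wordSet (T9h34.G.sparseCode S) s)) D))
      (graphInput_le (Γ_mono S ι (hsub _) le_rfl)) (by simpa using hcon)).2
    have h2 : (Γ S ι (put Y e (wordSet (T9h34.G.sparseCode S) s)) D).edgeSet.ncard = y := by
      rw [Γ_edges S ι _ hD, lc_put_word S hY]
      rw [Γ_edges S ι _ hD] at hyD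
      omega
    have h3 := hpos _ h2 (by
      rw [hK]
      refine (Γ_clique S hk ha hc ι hD).2 ⟨e, s, ?_⟩
      intro g hg
      exact mem_put.2 (Or.inr ⟨rfl, hg⟩))
    rw [h1] at h3
    exact absurd h3 (by simp))
  rw [hev] at hUE
  have hUX : U.card ≤ a * 2 ^ (2 * b) := by
    rw [← hX]
    exact Finset.card_le_univ U
  have hYw' := hasWord_put S hY ha hYw hU
  have hlc := lc_put_le S Y e U
  have h5 := Γ_edges S ι Y hD
  have h6 := Γ_edges S ι (put Y e U) (le_refl (Hg a b k u p d (K - 1)))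
  have h7 := hfull (put Y e U)
  obtain ⟨D', hDD', hD'H, hD'c⟩ := Gr.exists_between hD
    (e := z - ((ggraph (u := u) (k := k) S (∅ : Finset (GGround a b p))).edgeSet.ncard +
      lc S (put Y e U))) (by omega) (by omega)
  have hz : (Γ S ι (put Y e U) D').edgeSet.ncard = z := by
    rw [Γ_edges S ι _ hD'H, hD'c]
    omega
  refine ⟨U, D', hDD', hD'H, hz, hYw', ?_⟩
  have hle : Γ S ι Y D ≤ Γ S ι (put Y e U) D' := Γ_mono S ι (hsub U) hDD'
  apply C.pot_lt hCd (graphInput_le hle)
  intro hreads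
  refine hneg _ hz ?_ (hE4 _ hreads.symm ?_)
  · rw [hK, Γ_clique S hk ha hc ι hD'H]
    exact hYw'
  · exact RW.Circuit.eval_mono (graphInput_le (Γ_mono S ι (subset_refl _) hDD')) E hE1 hUE

/-- The chain of all phases. -/
theorem alt_core (hk : 0 < k) (ha : 0 < a) (n K w l M f dd : ℕ) (y z : ℕ → ℕ)
    (hK : K = Fintype.card (Grp a b k u))
    (hw : Fintype.card (GVtx a b k u p) = u + w) (hn : u + d + w = n)
    (hard : ∀ C : RW.Circuit (Ground a b), (∀ g ∈ C.gates, g.IsMono f) → C.size < 2 ^ l →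
        (∀ s, C.eval (chi (wordSet (T9h34.G.sparseCode S) s)) = true) →
        ∃ U : Finset (Ground a b), (¬ ∃ s, wordSet (T9h34.G.sparseCode S) s ⊆ U) ∧
          C.eval (chi U) = true)
    (hf : 2 ≤ f) (C : RW.Circuit (Fin n × Fin n)) (hd : C.FanIn f dd)
    (hs : C.size + C.numTests + 1 < 2 ^ l)
    (hM : M ≤ p ^ 2)
    (hpos : ∀ i < M, ∀ G : SimpleGraph (Fin n), G.edgeSet.ncard = y i →
      (∃ c : Finset (Fin n), G.IsClique (c : Set (Fin n)) ∧ K ≤ c.card) →
        C.eval (graphInput G) = true)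
    (hneg : ∀ i < M, ∀ G : SimpleGraph (Fin n), G.edgeSet.ncard = z i →
      (¬ ∃ c : Finset (Fin n), G.IsClique (c : Set (Fin n)) ∧ K ≤ c.card) →
        ¬ C.eval (graphInput G) = true)
    (h1 : 0 < M → (u + w).choose 2 + a ≤ y 0)
    (h2 : ∀ i < M, z i + w * n ≤ SimpleGraph.extremalNumber n (⊤ : SimpleGraph (Fin K)))
    (h3 : ∀ i < M, y i + a * 2 ^ (2 * b) ≤ z i)
    (h4 : ∀ i, i + 1 < M → z i + a ≤ y (i + 1)) :
    M + dd ≤ dd * 2 ^ C.numOther ∨ M = 0 := by
  have hcardG : Fintype.card (Grp a b k u) = a * 2 + (a * (2 * (b * k)) + u) := by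
    simp only [Grp, Fintype.card_sum, Fintype.card_prod, Fintype.card_fin, Fintype.card_bool]
  rcases Nat.eq_zero_or_pos M with hM0 | hM0
  · exact Or.inr hM0
  left
  have hp : 0 < p := by
    by_contra hp
    have : p = 0 := by omega
    rw [this] at hM
    simp at hM
    omega
  have hK2 : 2 ≤ K := by omega
  have hcard : Fintype.card (VV a b k u p d) = Fintype.card (Fin n) := by
    rw [Fintype.card_sum, hw, Fintype.card_fin, Fintype.card_fin]
    omega
  obtain ⟨ι⟩ := Fintype.card_eq.1 hcard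
  -- an enumeration of the blocks
  have hemb : ∃ e : Fin M → Fin p × Fin p, Function.Injective e := by
    have : Fintype.card (Fin M) ≤ Fintype.card (Fin p × Fin p) := by
      rw [Fintype.card_prod, Fintype.card_fin, Fintype.card_fin]
      rw [sq] at hM
      exact hM
    obtain ⟨f⟩ := Function.Embedding.nonempty_of_card_le this
    exact ⟨f, f.injective⟩
  obtain ⟨e, he⟩ := hemb
  have hfull : ∀ i < M, ∀ Z : Finset (GGround a b p),
      z i ≤ (Γ S ι Z (Hg a b k u p d (K - 1))).edgeSet.ncard := by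
    intro i hi Z
    have h5 := full_ncard S ⟨0, hp⟩ (w := w) hK2 hn Z
    have h6 := h2 i hi
    rw [Gr.Γ_ncard]
    omega
  have hF : (ggraph (u := u) (k := k) S (∅ : Finset (GGround a b p))).edgeSet.ncard ≤
      (u + w).choose 2 := by
    rw [← hw]
    exact gr_ncard_choose S ∅
  have key : ∀ j ≤ M, ∃ (Y : Finset (GGround a b p)) (D : SimpleGraph (VV a b k u p d)),
      ¬ HasWord S Y ∧ (∀ q ∈ Y, ∀ i : Fin M, j ≤ i → q.1 ≠ e i) ∧ D ≤ Hg a b k u p d (K - 1) ∧
      (j < M → (Γ S ι Y D).edgeSet.ncard + a ≤ y j) ∧ j ≤ C.pot (graphInput (Γ S ι Y D)) := by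
    intro j
    induction j with
    | zero =>
      intro _
      refine ⟨∅, ⊥, ?_, by simp, bot_le, ?_, Nat.zero_le _⟩
      · rintro ⟨e', s, h⟩
        have h5 : (wordSet (T9h34.G.sparseCode S) s).card = a := card_wordSet _ s
        obtain ⟨g, hg⟩ := Finset.card_pos.1 (by rw [h5]; exact ha)
        exact absurd (h g hg) (by simp)
      · intro h0
        have h5 := h1 h0
        rw [Γ_edges S ι ∅ (bot_le : _ ≤ Hg a b k u p d (K - 1))]
        have h6 : lc S (∅ : Finset (GGround a b p)) = 0 := by simp [lc]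
        rw [h6]
        simp only [SimpleGraph.edgeSet_bot, Set.ncard_empty]
        omega
    | succ j ih =>
      intro hj
      obtain ⟨Y, D, hYw, hY, hD, hyD, hpot⟩ := ih (by omega)
      have hjM : j < M := hj
      have hyD' := hyD hjM
      have h5 := Γ_edges S ι Y hD
      have h6 := Γ_edges S ι Y (le_refl (Hg a b k u p d (K - 1)))
      have h7 := hfull j hjM Y
      have h8 := h3 j hjM
      obtain ⟨D1, hDD1, hD1H, hD1c⟩ := Gr.exists_between hD
        (e := y j - a - ((ggraph (u := u) (k := k) S (∅ : Finset (GGround a b p))).edgeSet.ncard +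
          lc S Y)) (by omega) (by omega)
      have hy : (Γ S ι Y D1).edgeSet.ncard + a = y j := by
        rw [Γ_edges S ι _ hD1H, hD1c]
        omega
      obtain ⟨U, D', hD1D', hD'H, hz, hYw', hlt⟩ := phase S hk ha hK ι hard hf C hd hs (hpos j hjM)
        (hneg j hjM) h8 (hfull j hjM) Y (e ⟨j, hjM⟩) (fun q hq => hY q hq ⟨j, hjM⟩ le_rfl) hYw D1
        hD1H hy
      refine ⟨put Y (e ⟨j, hjM⟩) U, D', hYw', ?_, hD'H, ?_, ?_⟩
      · intro q hq i hi
        rcases mem_put.1 hq with h' | h'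
        · exact hY q h' i (by omega)
        · rw [h'.1]
          intro h9
          have := he h9
          rw [← this] at hi
          simp at hi
      · intro hj'
        rw [hz]
        exact h4 j hj'
      · have h9 := C.pot_mono hd (graphInput_le (Γ_mono S ι (subset_refl Y) hDD1))
        omega
  obtain ⟨Y, D, -, -, -, -, hpot⟩ := key M le_rfl
  have := C.pot_bound hd (graphInput (Γ S ι Y D))
  omega

end Pool.Agent.T9h35.RW.Alt
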