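import Pool.Agent.T9h35.RW.Chain
import Pool.Agent.T9h34.S.BlockAvg

set_option autoImplicit false

/-!
Blocks with few variables on which circuits of nondecreasing real gates of large fan-in cannot
distinguish random codewords from noise.
-/

namespace Pool.Agent.T9h35.RW

open Finset Pool.Agent.T9h34.G
open Pool.Agent.T9h34 (ind ind_of ind_not ind_nonneg ind_le_one ind_mono ind_or_le
  smalls mem_smalls card_smalls_le Ev Spread chi pull Ground wordSet card_wordSet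
  spread_code)

/-- The error term is negligible. -/
theorem rerr_small {X : Type*} [Fintype X] [DecidableEq X] {lam l s : ℕ}
    (hlam : 6 ≤ lam) (hl1 : 2 ≤ l) (hs : s < 2 ^ l)
    (hXcard : Fintype.card X + 1 ≤ 2 ^ (2 * lam)) :
    RW.err X (14 * (lam * l)) (3 * l) s ≤ 2 * (1 / 2 : ℝ) ^ (2 * l) := by
  set L := 14 * (lam * l) with hL
  have hll : 6 * l ≤ lam * l := Nat.mul_le_mul_right _ hlam
  have hll2 : 2 * lam ≤ lam * l := by rw [mul_comm lam l]; exact Nat.mul_le_mul_right _ hl1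
  have hsm : ((smalls (X := X) (3 * l)).card : ℝ) ≤ 2 ^ (6 * (lam * l)) := by
    have h1 := card_smalls_le (X := X) (3 * l)
    have h2 : (Fintype.card X + 1) ^ (3 * l) ≤ (2 ^ (2 * lam)) ^ (3 * l) :=
      Nat.pow_le_pow_left hXcard _
    have h3 : (2 ^ (2 * lam)) ^ (3 * l) = 2 ^ (6 * (lam * l)) := by
      rw [← pow_mul]; congr 1; ring
    rw [h3] at h2
    exact_mod_cast le_trans h1 h2
  have hP1 : (1 : ℝ) ≤ 2 ^ (6 * (lam * l)) := one_le_pow₀ (by norm_num)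
  have hdel : del X L (3 * l) ≤ 2 ^ (12 * (lam * l) + 1) * (1 / 2 : ℝ) ^ L := by
    unfold del
    have hp1 : (0 : ℝ) ≤ (1 / 2 : ℝ) ^ L := pow_nonneg (by norm_num) _
    have e1 : (2 : ℝ) ^ (12 * (lam * l) + 1) = (2 * 2 ^ (6 * (lam * l))) * 2 ^ (6 * (lam * l)) := by
      have : 12 * (lam * l) + 1 = 6 * (lam * l) + 6 * (lam * l) + 1 := by ring
      rw [this, pow_succ, pow_add]
      ring
    rw [e1, mul_assoc (2 * (2 : ℝ) ^ (6 * (lam * l)))]
    apply mul_le_mul (by linarith) _ (by positivity) (by positivity)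
    exact mul_le_mul_of_nonneg_right hsm hp1
  unfold RW.err
  have hsR : (s : ℝ) ≤ 2 ^ l := by exact_mod_cast hs.le
  have hs0 : (0 : ℝ) ≤ s := Nat.cast_nonneg s
  have key : ∀ i j : ℕ, i + 2 * l ≤ j → (2 : ℝ) ^ i * (1 / 2 : ℝ) ^ j ≤ (1 / 2) ^ (2 * l) := by
    intro i j hij
    obtain ⟨d, rfl⟩ := Nat.exists_eq_add_of_le hij
    have h1 : (1 / 2 : ℝ) ^ (i + 2 * l + d) = (1 / 2) ^ i * ((1 / 2) ^ (2 * l) * (1 / 2) ^ d) := by
      rw [← pow_add, ← pow_add]; congr 1; ring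
    have h2 : (2 : ℝ) ^ i * (1 / 2) ^ i = 1 := by rw [← mul_pow]; norm_num
    have h3 : (1 / 2 : ℝ) ^ d ≤ 1 := pow_le_one₀ (by norm_num) (by norm_num)
    have h4 : (0 : ℝ) ≤ (1 / 2 : ℝ) ^ (2 * l) := by positivity
    calc (2 : ℝ) ^ i * (1 / 2 : ℝ) ^ (i + 2 * l + d)
        = ((2 : ℝ) ^ i * (1 / 2) ^ i) * ((1 / 2) ^ (2 * l) * (1 / 2) ^ d) := by rw [h1]; ring
      _ = (1 / 2) ^ (2 * l) * (1 / 2) ^ d := by rw [h2, one_mul]
      _ ≤ (1 / 2) ^ (2 * l) * 1 := mul_le_mul_of_nonneg_left h3 h4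
      _ = _ := mul_one _
  have h1 : (s : ℝ) * (1 / 2 : ℝ) ^ (3 * l) ≤ (1 / 2) ^ (2 * l) := by
    refine le_trans ?_ (key l (3 * l) (by omega))
    exact mul_le_mul_of_nonneg_right hsR (by positivity)
  have hX : ((Fintype.card X : ℕ) : ℝ) ≤ 2 ^ (lam * l) := by
    have h2 : Fintype.card X ≤ 2 ^ (lam * l) :=
      le_trans (by omega) (hXcard.trans (Nat.pow_le_pow_right (by norm_num) hll2))
    exact_mod_cast h2
  have hsX : (s : ℝ) + (Fintype.card X : ℕ) ≤ 2 ^ (lam * l + 1) := by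
    have h2 : (2 : ℝ) ^ l ≤ 2 ^ (lam * l) := pow_le_pow_right₀ (by norm_num) (by omega)
    rw [pow_succ]
    linarith
  have h2 : 3 * (((s : ℝ) + Fintype.card X) * del X L (3 * l)) ≤ (1 / 2) ^ (2 * l) := by
    have hp1 : (0 : ℝ) ≤ (1 / 2 : ℝ) ^ L := pow_nonneg (by norm_num) _
    refine le_trans ?_ (key (2 + (lam * l + 1) + (12 * (lam * l) + 1)) L (by omega))
    calc 3 * (((s : ℝ) + Fintype.card X) * del X L (3 * l))
        ≤ 4 * (2 ^ (lam * l + 1) * (2 ^ (12 * (lam * l) + 1) * (1 / 2 : ℝ) ^ L)) := by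
          apply mul_le_mul (by norm_num) _ _ (by norm_num)
          · exact mul_le_mul hsX hdel del_nonneg (pow_nonneg (by norm_num) _)
          · exact mul_nonneg (by positivity) del_nonneg
      _ = 2 ^ (2 + (lam * l + 1) + (12 * (lam * l) + 1)) * (1 / 2 : ℝ) ^ L := by
          rw [pow_add (2 : ℝ) (2 + (lam * l + 1)), pow_add (2 : ℝ) 2]; norm_num; ring
  linarith

/-- The block. -/
theorem rblock {l f w lam : ℕ} (hl : 100 ≤ l) (hw : w = 2 * l + f + 2)
    (hlam : lam = 2 * Nat.log 2 w + 25) :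
    ∃ (a b k m : ℕ) (S : Row a b → Fin k → Fin m) (N : NoiseOp (Ground a b)) (B κ : ℝ),
      1 ≤ a ∧ 1 ≤ k ∧ a ≤ 130 * (lam ^ 2 * l) ∧ b ≤ lam ∧ k = 2 * lam ∧
      2 ^ (2 * b) ≤ 84480 * (lam ^ 3 * w) ∧
      Fintype.card (Ground a b) + 1 ≤ 2 ^ (2 * lam) ∧
      RW.Hyp N (wordSet (sparseCode S)) (14 * (lam * l)) (3 * l) f B κ ∧
      N.iter (14 * (lam * l) + 1) (fun U => ind (∃ s, wordSet (sparseCode S) s ⊆ U)) ≤
        (1 / 2 : ℝ) ^ (2 * l) := by
  obtain ⟨y, hy⟩ : ∃ y, y = Nat.log 2 w := ⟨_, rfl⟩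
  rw [← hy] at hlam
  have hlam1 : 1 ≤ lam := by omega
  have hl1 : 1 ≤ l := by omega
  have hw1 : 1 ≤ w := by omega
  have hwy : w < 2 ^ (y + 1) := by rw [hy]; exact Nat.lt_pow_succ_log_self (by norm_num) w
  set L := 14 * (lam * l) with hL
  have hll : 1 ≤ lam * l := Nat.one_le_iff_ne_zero.2 (by positivity)
  have hL1 : L + 1 ≤ 15 * (lam * l) := by omega
  obtain ⟨q, hq⟩ : ∃ q, q = 21120 * (lam ^ 3 * w) := ⟨_, rfl⟩
  have hq0 : 0 < q := by rw [hq]; positivity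
  -- the number of bits
  obtain ⟨b, hb1, hb2⟩ : ∃ b, q ≤ 2 ^ (2 * b) ∧ 2 ^ (2 * b) ≤ 4 * q := by
    have hex : ∃ b, q ≤ 2 ^ (2 * b) := ⟨q, (Nat.lt_two_pow_self).le.trans
      (Nat.pow_le_pow_right (by norm_num) (by omega))⟩
    refine ⟨Nat.find hex, Nat.find_spec hex, ?_⟩
    by_cases h0 : Nat.find hex = 0
    · rw [h0]
      simp only [mul_zero, pow_zero]
      omega
    · have := Nat.find_min hex (m := Nat.find hex - 1) (by omega)
      push Not at this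
      have h1 : 2 * Nat.find hex = 2 * (Nat.find hex - 1) + 2 := by omega
      rw [h1, pow_add]
      omega
  have hb2' : 2 ^ (2 * b) ≤ 84480 * (lam ^ 3 * w) := by
    calc 2 ^ (2 * b) ≤ 4 * q := hb2
      _ = 84480 * (lam ^ 3 * w) := by rw [hq]; ring
  -- the number of variables is at most `4 ^ lam`
  have hlw : l ≤ w := by omega
  have hy4 : 16 ≤ 2 ^ (y + 1) := by
    by_contra hcon
    push Not at hcon
    omega
  have hlw2 : 16 * (l * w) ≤ (2 ^ (y + 1)) ^ 3 := by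
    calc 16 * (l * w) ≤ 2 ^ (y + 1) * (2 ^ (y + 1) * 2 ^ (y + 1)) :=
          Nat.mul_le_mul hy4 (Nat.mul_le_mul (hlw.trans hwy.le) hwy.le)
      _ = (2 ^ (y + 1)) ^ 3 := by ring
  have hbig : 1013761 * lam ^ 5 * (16 * (l * w)) < 2 ^ (2 * lam) := by
    rw [hlam]
    exact lt_of_le_of_lt (Nat.mul_le_mul_left _ hlw2) Pool.Agent.T9h34.S.pow_big3
  have hblam : b ≤ lam := by
    by_contra hlt
    push Not at hlt
    have h1 : 2 ^ (2 * lam) ≤ 2 ^ (2 * b) := Nat.pow_le_pow_right (by norm_num) (by omega)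
    have h2 : 84480 * (lam ^ 3 * w) ≤ 1013761 * lam ^ 5 * (16 * (l * w)) := by
      calc 84480 * (lam ^ 3 * w) ≤ (1013761 * 16) * (lam ^ 5 * (l * w)) := by
            apply Nat.mul_le_mul (by norm_num)
            apply Nat.mul_le_mul (Nat.pow_le_pow_right hlam1 (by norm_num))
            exact Nat.le_mul_of_pos_left _ (by omega)
        _ = 1013761 * lam ^ 5 * (16 * (l * w)) := by ring
    omega
  obtain ⟨k, hk⟩ : ∃ k, k = 2 * lam := ⟨_, rfl⟩
  obtain ⟨m, hm⟩ : ∃ m, m = 128 * (lam * b * l) := ⟨_, rfl⟩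
  obtain ⟨a, ha⟩ : ∃ a, a = m + 2 * l := ⟨_, rfl⟩
  have hb0 : 1 ≤ b := by
    by_contra h0
    have : b = 0 := by omega
    rw [this, hq] at hb1
    simp only [mul_zero, pow_zero] at hb1
    have h1 : 1 ≤ lam ^ 3 * w := Nat.one_le_iff_ne_zero.2 (by positivity)
    omega
  have hlamlle : l ≤ lam ^ 2 * l := Nat.le_mul_of_pos_left _ (by positivity)
  have hbl : lam * b * l ≤ lam ^ 2 * l := by
    apply Nat.mul_le_mul_right
    rw [sq]
    exact Nat.mul_le_mul_left _ hblam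
  have ha130 : a ≤ 130 * (lam ^ 2 * l) := by omega
  have hXcard : Fintype.card (Ground a b) + 1 ≤ 2 ^ (2 * lam) := by
    have h1 : Fintype.card (Ground a b) = a * 2 ^ (2 * b) := by
      simp [Ground, Pool.Agent.T9h34.Sym, ZMod.card]
    rw [h1]
    have h2 : a * 2 ^ (2 * b) ≤ 1013761 * lam ^ 5 * (16 * (l * w)) := by
      calc a * 2 ^ (2 * b) ≤ (130 * (lam ^ 2 * l)) * (84480 * (lam ^ 3 * w)) :=
            Nat.mul_le_mul ha130 hb2'
        _ = 10982400 * (lam ^ 5 * (l * w)) := by ring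
        _ ≤ (1013761 * 16) * (lam ^ 5 * (l * w)) := Nat.mul_le_mul_right _ (by norm_num)
        _ = 1013761 * lam ^ 5 * (16 * (l * w)) := by ring
    omega
  have hm0 : 0 < m := by
    rw [hm]
    have : 0 < lam * b * l := Nat.mul_pos (Nat.mul_pos hlam1 hb0) hl1
    omega
  have ha0 : 1 ≤ a := by omega
  -- the code
  obtain ⟨S, hS⟩ := exists_sparse (R := Row a b) (k := k) (m := m) (2 * (3 * l) * (2 * b)) hm0
    (by
      have h0 : Fintype.card (Row a b) = a * (2 * b) := by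
        simp [Row]
      rw [h0, hk]
      have h3 : 4 * (a * (2 * b)) ≤ 1013761 * lam ^ 5 * (16 * (l * w)) := by
        calc 4 * (a * (2 * b)) ≤ 4 * ((130 * (lam ^ 2 * l)) * (2 * lam)) :=
              Nat.mul_le_mul_left _ (Nat.mul_le_mul ha130 (Nat.mul_le_mul_left _ hblam))
          _ = 1040 * (lam ^ 3 * (l * 1)) := by ring
          _ ≤ (1013761 * 16) * (lam ^ 5 * (l * w)) := by
              apply Nat.mul_le_mul (by norm_num)
              exact Nat.mul_le_mul (Nat.pow_le_pow_right hlam1 (by norm_num))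
                (Nat.mul_le_mul_left _ hw1)
          _ = 1013761 * lam ^ 5 * (16 * (l * w)) := by ring
      omega)
    (by
      rw [hm, hk]
      calc 4 * (2 * (3 * l) * (2 * b)) * (2 * lam) = 96 * (lam * b * l) := by ring
        _ ≤ 128 * (lam * b * l) := Nat.mul_le_mul_right _ (by norm_num))
  have hspread := spread_code (sparseCode S) (sparseCode_indep S hS)
  -- noise
  set D := 2 * ((L + 1) * lam) with hD
  have hD0 : 0 < D := by positivity
  have h3l : 3 * l < 2 ^ lam := by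
    have h1 : 2 ^ (y + 3) ≤ 2 ^ lam := Nat.pow_le_pow_right (by norm_num) (by omega)
    have h2 : 2 ^ (y + 3) = 4 * 2 ^ (y + 1) := by
      rw [show y + 3 = (y + 1) + 2 by ring, pow_add]; ring
    omega
  have hcov := covers_enNoise (X := Ground a b) hD0 (J := lam) (c := 3 * l) hlam1 h3l
  have hκ : (0 : ℝ) ≤ (1 / 2 : ℝ) ^ (2 * b) := pow_nonneg (by norm_num) _
  -- `B κ * 22 w ≤ l`
  have hDl : 32 * lam * D * 22 ≤ 21120 * lam ^ 3 * l := by
    calc 32 * lam * D * 22 = 1408 * lam ^ 2 * (L + 1) := by rw [hD]; ring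
      _ ≤ 1408 * lam ^ 2 * (15 * (lam * l)) := Nat.mul_le_mul_left _ hL1
      _ = 21120 * lam ^ 3 * l := by ring
  have hBκw : (32 * (lam : ℝ) * D * (1 / 2 : ℝ) ^ (2 * b)) * (22 * w) ≤ l := by
    have h1 : ((q : ℕ) : ℝ) ≤ ((2 ^ (2 * b) : ℕ) : ℝ) := by exact_mod_cast hb1
    have h2 : (1 / 2 : ℝ) ^ (2 * b) * ((2 ^ (2 * b) : ℕ) : ℝ) = 1 := by
      push_cast
      rw [← mul_pow]; norm_num
    have h3 : ((32 * lam * D * 22 : ℕ) : ℝ) ≤ ((21120 * lam ^ 3 * l : ℕ) : ℝ) := by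
      exact_mod_cast hDl
    push_cast at h3
    have h4 : ((q : ℕ) : ℝ) = 21120 * (lam ^ 3 * w) := by rw [hq]; push_cast; ring
    have hl0 : (0 : ℝ) ≤ l := Nat.cast_nonneg _
    have hw0 : (0 : ℝ) ≤ w := Nat.cast_nonneg _
    calc (32 * (lam : ℝ) * D * (1 / 2 : ℝ) ^ (2 * b)) * (22 * w)
        = (32 * (lam : ℝ) * D * 22) * ((1 / 2 : ℝ) ^ (2 * b) * w) := by ring
      _ ≤ (21120 * (lam : ℝ) ^ 3 * l) * ((1 / 2 : ℝ) ^ (2 * b) * w) :=
          mul_le_mul_of_nonneg_right h3 (mul_nonneg hκ hw0)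
      _ = ((1 / 2 : ℝ) ^ (2 * b) * (q : ℕ)) * l := by rw [h4]; ring
      _ ≤ ((1 / 2 : ℝ) ^ (2 * b) * ((2 ^ (2 * b) : ℕ) : ℝ)) * l := by
          apply mul_le_mul_of_nonneg_right _ hl0
          exact mul_le_mul_of_nonneg_left h1 hκ
      _ = l := by rw [h2, one_mul]
  have hB1 : 1 ≤ 32 * (lam : ℝ) * D := by
    have h1 : (1 : ℝ) ≤ lam := by exact_mod_cast hlam1
    have h2 : (1 : ℝ) ≤ D := by exact_mod_cast hD0
    nlinarith
  have hBκ0 : 0 ≤ 32 * (lam : ℝ) * D * (1 / 2 : ℝ) ^ (2 * b) :=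
    mul_nonneg (by linarith) hκ
  set N := enNoise (X := Ground a b) hD0 lam with hN
  refine ⟨a, b, k, m, S, N, 32 * (lam : ℝ) * D, (1 / 2 : ℝ) ^ (2 * b), ha0, by omega, ha130,
    hblam, hk, hb2', hXcard, ?_, ?_⟩
  · refine ⟨by omega, by omega, hB1, hcov, hκ, hspread, ?_, ?_⟩
    · have hwl : 2 * (l : ℝ) ≤ w := by exact_mod_cast (by omega : 2 * l ≤ w)
      have hl0 : (0 : ℝ) < l := by exact_mod_cast hl1
      have h1 : (32 * (lam : ℝ) * D * (1 / 2 : ℝ) ^ (2 * b)) * (44 * l) ≤ 1 * l := by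
        rw [one_mul]
        refine le_trans ?_ hBκw
        exact mul_le_mul_of_nonneg_left (by linarith) hBκ0
      have h2 : (32 * (lam : ℝ) * D * (1 / 2 : ℝ) ^ (2 * b)) * 44 ≤ 1 := by
        rw [← mul_assoc] at h1
        exact le_of_mul_le_mul_right h1 hl0
      linarith
    · have hfw : (f : ℝ) ≤ w := by exact_mod_cast (by omega : f ≤ w)
      have h1 : (32 * (lam : ℝ) * D * (1 / 2 : ℝ) ^ (2 * b)) * (22 * (f : ℝ)) ≤ l := by
        refine le_trans ?_ hBκw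
        exact mul_le_mul_of_nonneg_left (by linarith) hBκ0
      have hl0 : (0 : ℝ) < l := by exact_mod_cast hl1
      push_cast
      nlinarith
  · refine (few_enNoise hD0 lam (L + 1) (wordSet (sparseCode S))
      (card_wordSet (sparseCode S))).trans ?_
    rw [Fintype.card_fun, ZMod.card, Fintype.card_fin]
    have h1 : (((L + 1) * lam : ℕ) : ℝ) / (D : ℝ) ≤ 1 / 2 := by
      rw [div_le_iff₀ (by exact_mod_cast hD0), hD]
      push_cast
      linarith
    calc (((2 ^ m : ℕ) : ℝ)) * ((((L + 1) * lam : ℕ) : ℝ) / (D : ℝ)) ^ a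
        ≤ ((2 ^ m : ℕ) : ℝ) * (1 / 2) ^ a := by
          apply mul_le_mul_of_nonneg_left _ (by positivity)
          exact pow_le_pow_left₀ (by positivity) h1 a
      _ = (1 / 2 : ℝ) ^ (2 * l) := by
          rw [ha, pow_add]
          push_cast
          rw [← mul_assoc, ← mul_pow]
          norm_num

end Pool.Agent.T9h35.RW
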