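import Pool.Agent.T9h34.S.AltMain
import Pool.Agent.T9h35.RW.AltCore
import Pool.Agent.T9h35.RW.Block

set_option autoImplicit false

/-!
# Circuits with real gates that are correct on alternating slices: the parameters

Real-valued version of `Pool.Agent.T9h34.S.AltMain` (by helper34).
-/

namespace Pool.Agent.T9h35.RW.Alt

open Finset
open Pool.Agent.T9h34 (ind ind_of ind_not ind_nonneg ind_le_one ind_mono ind_or_le Ev Ev_const Ev_mono'
  Grp Vtx Ground wordSet card_wordSet chi pull graphInput)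
open Pool.Agent.T9h34.S Pool.Agent.T9h34.S.Gr
open scoped Classical

theorem fanIn_le {ι : Type*} {f f' d : ℕ} (h : f ≤ f') (C : RW.Circuit ι) (hC : C.FanIn f d) :
    C.FanIn f' d := by
  intro g hg
  have h1 := hC g hg
  cases g with
  | mono args φ => exact ⟨h1.1.trans h, h1.2⟩
  | other tests φ => exact h1

/-- Circuits of nondecreasing gates of fan-in `f` with fewer than `2 ^ l` gates err on the
block. -/
theorem block_hard {a b k m l f lam : ℕ} {S : T9h34.G.Row a b → Fin k → Fin m}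
    {N : T9h34.G.NoiseOp (Ground a b)} {B κ : ℝ} (hl : 100 ≤ l) (hlam : 25 ≤ lam)
    (hX : Fintype.card (Ground a b) + 1 ≤ 2 ^ (2 * lam))
    (H : RW.Hyp N (wordSet (T9h34.G.sparseCode S)) (14 * (lam * l)) (3 * l) f B κ)
    (hη : N.iter (14 * (lam * l) + 1)
      (fun U => ind (∃ s, wordSet (T9h34.G.sparseCode S) s ⊆ U)) ≤ (1 / 2 : ℝ) ^ (2 * l))
    (C : RW.Circuit (Ground a b)) (hm : ∀ g ∈ C.gates, g.IsMono f) (hs : C.size < 2 ^ l)
    (hacc : ∀ s, C.eval (chi (wordSet (T9h34.G.sparseCode S) s)) = true) :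
    ∃ U : Finset (Ground a b), (¬ ∃ s, wordSet (T9h34.G.sparseCode S) s ⊆ U) ∧
      C.eval (chi U) = true := by
  by_contra hcon
  push Not at hcon
  have h1 := domination H C hm
  have h2 : RW.err (Ground a b) (14 * (lam * l)) (3 * l) C.size ≤ 2 * (1 / 2 : ℝ) ^ (2 * l) :=
    rerr_small (by omega) (by omega) hs hX
  unfold RW.err at h2
  have h3 : Ev (wordSet (T9h34.G.sparseCode S)) (fun Z => ind (C.eval (chi Z) = true)) = 1 := by
    rw [← Ev_const (wordSet (T9h34.G.sparseCode S)) (1 : ℝ)]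
    apply le_antisymm
    · exact Ev_mono' _ (fun s => by
        simp only [ind_of (hacc s)]
        exact le_rfl)
    · exact Ev_mono' _ (fun s => by
        simp only [ind_of (hacc s)]
        exact le_rfl)
  have h4 : N.iter (14 * (lam * l) + 1) (fun U => ind (C.eval (chi U) = true)) ≤
      N.iter (14 * (lam * l) + 1)
        (fun U => ind (∃ s, wordSet (T9h34.G.sparseCode S) s ⊆ U)) := by
    apply N.iter_mono
    intro U
    apply ind_mono
    intro hU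
    by_contra hno
    exact absurd hU (by simpa using hcon U (by push Not at hno; exact hno))
  have h5 : (1 / 2 : ℝ) ^ (2 * l) ≤ 1 / 32 := by
    calc (1 / 2 : ℝ) ^ (2 * l) ≤ (1 / 2) ^ 5 :=
          pow_le_pow_of_le_one (by norm_num) (by norm_num) (by omega)
      _ = 1 / 32 := by norm_num
  linarith

/-- The size of the block. -/
theorem block_size {L : ℕ} (f : ℕ) (hL1 : 1 ≤ L) :
    ∃ (a b k m : ℕ) (S : T9h34.G.Row a b → Fin k → Fin m),
    1 ≤ a ∧ 1 ≤ k ∧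
    a * 2 + a * (2 * (b * k)) ≤ 10 ^ 29 * L * (Nat.log 2 (L + f) + 1) ^ 4 ∧
    a * 2 ^ (2 * b) ≤ 10 ^ 29 * L * (L + f) * (Nat.log 2 (L + f) + 1) ^ 5 ∧
    (2 * (a * 2 * 2 ^ b + a * (2 * (b * k)) * 4)) ^ 2 ≤
      10 ^ 29 * L ^ 2 * (L + f) * (Nat.log 2 (L + f) + 1) ^ 7 ∧
    ∀ C : RW.Circuit (Ground a b), (∀ g ∈ C.gates, g.IsMono (f + 2)) → C.size < 2 ^ L →
        (∀ s, C.eval (chi (wordSet (T9h34.G.sparseCode S) s)) = true) →
        ∃ U : Finset (Ground a b), (¬ ∃ s, wordSet (T9h34.G.sparseCode S) s ⊆ U) ∧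
          C.eval (chi U) = true := by
  obtain ⟨l, hl⟩ : ∃ l, l = L + 100 := ⟨_, rfl⟩
  have hl100 : 100 ≤ l := by omega
  have hlL : l ≤ 101 * L := by omega
  obtain ⟨w, hw⟩ : ∃ w, w = 2 * l + (f + 2) + 2 := ⟨_, rfl⟩
  have hwL : w ≤ 206 * (L + f) := by omega
  obtain ⟨y, hy⟩ : ∃ y, y = Nat.log 2 w := ⟨_, rfl⟩
  obtain ⟨z, hz⟩ : ∃ z, z = Nat.log 2 (L + f) := ⟨_, rfl⟩
  have hyz : y ≤ z + 8 := by
    have h1 : w < 2 ^ (z + 1) * 2 ^ 8 := by
      have h2 : L + f < 2 ^ (z + 1) := by rw [hz]; exact Nat.lt_pow_succ_log_self (by norm_num) _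
      calc w ≤ 206 * (L + f) := hwL
        _ < 206 * 2 ^ (z + 1) := Nat.mul_lt_mul_of_pos_left h2 (by norm_num)
        _ ≤ 256 * 2 ^ (z + 1) := Nat.mul_le_mul_right _ (by norm_num)
        _ = 2 ^ (z + 1) * 2 ^ 8 := by ring
    rw [← pow_add] at h1
    have h3 : Nat.log 2 w < z + 1 + 8 := (Nat.log_lt_iff_lt_pow (by norm_num) (by omega)).2 h1
    omega
  have hyl : 2 ^ y ≤ w := by rw [hy]; exact Nat.pow_log_le_self 2 (by omega)
  obtain ⟨lam, hlam⟩ : ∃ lam, lam = 2 * y + 25 := ⟨_, rfl⟩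
  have hlamw : lam ≤ 27 * w := by
    have h1 : y < 2 ^ y := Nat.lt_two_pow_self
    omega
  have hlamz : lam ≤ 41 * (z + 1) := by omega
  obtain ⟨a, b, k, m, S, N, B, κ, ha, hk, ha130, hblam, hkk, h2b, hX, H, hη⟩ :=
    rblock (l := l) (f := f + 2) (w := w) (lam := lam) hl100 hw (by rw [← hy]; exact hlam)
  rw [← hz]
  have hblk : 2 * (b * k) ≤ 4 * lam ^ 2 := by
    rw [hkk]
    calc 2 * (b * (2 * lam)) ≤ 2 * (lam * (2 * lam)) :=
          Nat.mul_le_mul_left _ (Nat.mul_le_mul_right _ hblam)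
      _ = 4 * lam ^ 2 := by ring
  obtain ⟨A, hA'⟩ : ∃ A, A = a * 2 * 2 ^ b := ⟨_, rfl⟩
  obtain ⟨B', hB'⟩ : ∃ B', B' = a * (2 * (b * k)) * 4 := ⟨_, rfl⟩
  have hA : A ^ 2 ≤ 5710848000 * (lam ^ 7 * (l ^ 2 * w)) := by
    calc A ^ 2 = 4 * a ^ 2 * 2 ^ (2 * b) := by
          rw [hA', mul_pow, mul_pow, ← pow_mul, mul_comm b 2]
          ring
      _ ≤ 4 * (130 * (lam ^ 2 * l)) ^ 2 * (84480 * (lam ^ 3 * w)) :=
          Nat.mul_le_mul (Nat.mul_le_mul_left _ (Nat.pow_le_pow_left ha130 2)) h2b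
      _ = 5710848000 * (lam ^ 7 * (l ^ 2 * w)) := by ring
  have hB : B' ^ 2 ≤ 116812800 * (lam ^ 7 * (l ^ 2 * w)) := by
    have h1 : B' ≤ 2080 * (lam ^ 4 * l) := by
      rw [hB']
      calc a * (2 * (b * k)) * 4 ≤ (130 * (lam ^ 2 * l)) * (4 * lam ^ 2) * 4 :=
            Nat.mul_le_mul_right _ (Nat.mul_le_mul ha130 hblk)
        _ = 2080 * (lam ^ 4 * l) := by ring
    calc B' ^ 2 ≤ (2080 * (lam ^ 4 * l)) ^ 2 := Nat.pow_le_pow_left h1 2
      _ = 4326400 * (lam ^ 7 * l ^ 2) * lam := by ring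
      _ ≤ 4326400 * (lam ^ 7 * l ^ 2) * (27 * w) := Nat.mul_le_mul_left _ hlamw
      _ = 116812800 * (lam ^ 7 * (l ^ 2 * w)) := by ring
  have hAB : (2 * (A + B')) ^ 2 ≤ 46621286400 * (lam ^ 7 * (l ^ 2 * w)) := by
    have h1 : (2 * (A + B')) ^ 2 ≤ 8 * (A ^ 2 + B' ^ 2) := by
      zify
      nlinarith [sq_nonneg ((A : ℤ) - B')]
    omega
  refine ⟨a, b, k, m, S, ha, hk, ?_, ?_, ?_, ?_⟩
  · have h1 : 1 ≤ lam ^ 2 := Nat.one_le_pow _ _ (by omega)
    have h2 : lam ^ 4 ≤ (41 * (z + 1)) ^ 4 := Nat.pow_le_pow_left hlamz 4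
    calc a * 2 + a * (2 * (b * k)) = a * (2 + 2 * (b * k)) := by ring
      _ ≤ (130 * (lam ^ 2 * l)) * (2 * lam ^ 2 + 4 * lam ^ 2) :=
          Nat.mul_le_mul ha130 (Nat.add_le_add (by omega) hblk)
      _ = 780 * (l * lam ^ 4) := by ring
      _ ≤ 780 * ((101 * L) * (41 * (z + 1)) ^ 4) :=
          Nat.mul_le_mul_left _ (Nat.mul_le_mul hlL h2)
      _ = (780 * 101 * 41 ^ 4) * (L * (z + 1) ^ 4) := by ring
      _ ≤ 10 ^ 29 * (L * (z + 1) ^ 4) := Nat.mul_le_mul_right _ (by norm_num)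
      _ = 10 ^ 29 * L * (z + 1) ^ 4 := by ring
  · have h2 : lam ^ 5 ≤ (41 * (z + 1)) ^ 5 := Nat.pow_le_pow_left hlamz 5
    calc a * 2 ^ (2 * b) ≤ (130 * (lam ^ 2 * l)) * (84480 * (lam ^ 3 * w)) :=
          Nat.mul_le_mul ha130 h2b
      _ = 10982400 * (lam ^ 5 * (l * w)) := by ring
      _ ≤ 10982400 * ((41 * (z + 1)) ^ 5 * ((101 * L) * (206 * (L + f)))) :=
          Nat.mul_le_mul_left _ (Nat.mul_le_mul h2 (Nat.mul_le_mul hlL hwL))
      _ = (10982400 * 41 ^ 5 * 101 * 206) * (L * (L + f) * (z + 1) ^ 5) := by ring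
      _ ≤ 10 ^ 29 * (L * (L + f) * (z + 1) ^ 5) := Nat.mul_le_mul_right _ (by norm_num)
      _ = 10 ^ 29 * L * (L + f) * (z + 1) ^ 5 := by ring
  · have h1 : l ^ 2 ≤ (101 * L) ^ 2 := Nat.pow_le_pow_left hlL 2
    have h2 : lam ^ 7 ≤ (41 * (z + 1)) ^ 7 := Nat.pow_le_pow_left hlamz 7
    rw [← hA', ← hB']
    calc _ ≤ 46621286400 * (lam ^ 7 * (l ^ 2 * w)) := hAB
      _ ≤ 46621286400 * ((41 * (z + 1)) ^ 7 * ((101 * L) ^ 2 * (206 * (L + f)))) :=
          Nat.mul_le_mul_left _ (Nat.mul_le_mul h2 (Nat.mul_le_mul h1 hwL))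
      _ = (46621286400 * 41 ^ 7 * 101 ^ 2 * 206) * (L ^ 2 * (L + f) * (z + 1) ^ 7) := by ring
      _ ≤ 10 ^ 29 * (L ^ 2 * (L + f) * (z + 1) ^ 7) := Nat.mul_le_mul_right _ (by norm_num)
      _ = 10 ^ 29 * L ^ 2 * (L + f) * (z + 1) ^ 7 := by ring
  · intro C hC hCs
    exact block_hard hl100 (by omega) hX H hη C hC
      (hCs.trans_le (Nat.pow_le_pow_right (by norm_num) (by omega)))

/-- The quantitative theorem. -/
theorem alt_main (n q M p dd f L W : ℕ) (y z : ℕ → ℕ) (C : RW.Circuit (Fin n × Fin n))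
    (hd' : C.FanIn f dd) (hs : (dd + 1) * (C.size + 1) < 2 ^ L)
    (hW : 10 ^ 29 * L ^ 2 * (L + f) * (Nat.log 2 (L + f) + 1) ^ 7 ≤ W ^ 2)
    (hWq : 10 ^ 29 * L * (Nat.log 2 (L + f) + 1) ^ 4 ≤ q)
    (hM : M ≤ p ^ 2)
    (hy0 : 0 < M → q.choose 2 + n * (p * W) ≤ y 0)
    (hz0 : 0 < M → z (M - 1) + n * (p * W) ≤
      SimpleGraph.extremalNumber n (⊤ : SimpleGraph (Fin q)))
    (h3 : ∀ i < M, y i + 10 ^ 29 * L * (L + f) * (Nat.log 2 (L + f) + 1) ^ 5 ≤ z i)
    (h4 : ∀ i, i + 1 < M → z i + 10 ^ 29 * L * (L + f) * (Nat.log 2 (L + f) + 1) ^ 5 ≤ y (i + 1))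
    (hpos : ∀ i < M, ∀ G : SimpleGraph (Fin n), G.edgeSet.ncard = y i →
      (∃ c : Finset (Fin n), G.IsClique (c : Set (Fin n)) ∧ q ≤ c.card) →
        C.eval (graphInput G) = true)
    (hneg : ∀ i < M, ∀ G : SimpleGraph (Fin n), G.edgeSet.ncard = z i →
      (¬ ∃ c : Finset (Fin n), G.IsClique (c : Set (Fin n)) ∧ q ≤ c.card) →
        ¬ C.eval (graphInput G) = true) :
    M ≤ dd * (2 ^ C.numOther - 1) := by
  rcases Nat.eq_zero_or_pos M with hM0 | hM0
  · omega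
  have hy0 := hy0 hM0
  have hz0 := hz0 hM0
  have hL1 : 1 ≤ L := by
    by_contra hL
    have : L = 0 := by omega
    rw [this, pow_zero] at hs
    have : 1 ≤ (dd + 1) * (C.size + 1) := Nat.succ_le_of_lt (Nat.mul_pos (by omega) (by omega))
    omega
  have hp : 1 ≤ p := by
    by_contra hp
    have : p = 0 := by omega
    rw [this] at hM
    simp at hM
    omega
  have hd : C.FanIn (f + 2) dd := fanIn_le (by omega) C hd'
  have hs' : C.size + C.numTests + 1 < 2 ^ L := by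
    refine lt_of_le_of_lt ?_ hs
    have h1 := C.numTests_le hd
    nlinarith
  obtain ⟨a, b, k, m, S, ha, hk, hgr0, hX, hw2, hard⟩ := block_size f hL1
  have hW2 : 2 * (a * 2 * 2 ^ b + a * (2 * (b * k)) * 4) ≤ W :=
    (Nat.pow_le_pow_iff_left (by norm_num)).1 (hw2.trans hW)
  have hW1 : 1 ≤ W := by
    by_contra hW1
    have : W = 0 := by omega
    rw [this] at hW
    have h1 : 0 < 10 ^ 29 * L ^ 2 * (L + f) * (Nat.log 2 (L + f) + 1) ^ 7 := by positivity
    omega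
  -- the number of vertices of the grid
  obtain ⟨w, hw⟩ : ∃ w, w = a * 2 * (p * 2 ^ b) + a * (2 * (b * k)) * 4 := ⟨_, rfl⟩
  have hwp : 2 * w ≤ p * W := by
    calc 2 * w = p * (2 * (a * 2 * 2 ^ b)) + 1 * (2 * (a * (2 * (b * k)) * 4)) := by
          rw [hw]; ring
      _ ≤ p * (2 * (a * 2 * 2 ^ b)) + p * (2 * (a * (2 * (b * k)) * 4)) :=
          Nat.add_le_add_left (Nat.mul_le_mul_right _ hp) _
      _ = p * (2 * (a * 2 * 2 ^ b + a * (2 * (b * k)) * 4)) := by ring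
      _ ≤ p * W := Nat.mul_le_mul_left _ hW2
  have hgr : a * 2 + a * (2 * (b * k)) ≤ w := by
    rw [hw]
    have h1 : a * 2 ≤ a * 2 * (p * 2 ^ b) := Nat.le_mul_of_pos_right _ (by positivity)
    have h2 : a * (2 * (b * k)) ≤ a * (2 * (b * k)) * 4 := Nat.le_mul_of_pos_right _ (by norm_num)
    omega
  have hgW : a * 2 + a * (2 * (b * k)) ≤ q := hgr0.trans hWq
  have hq2 : 2 ≤ q := by omega
  have hex : SimpleGraph.extremalNumber n (⊤ : SimpleGraph (Fin q)) ≤ n.choose 2 := by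
    rw [Pool.Agent.T9h36.extremal_eq n q hq2, Pool.Agent.T9h36.ncard_edgeSet_eq]
    refine (SimpleGraph.card_edgeFinset_le_card_choose_two).trans (le_of_eq ?_)
    rw [Fintype.card_fin]
  have hzle := mono_step (fun i hi => (Nat.le_add_right _ _).trans (h3 i hi))
    (fun i hi => (Nat.le_add_right _ _).trans (h4 i hi))
  have hyz0 := h3 0 hM0
  have hz00 := hzle 0 hM0
  have hcc : q.choose 2 + n * (p * W) ≤ n.choose 2 := by omega
  have hn0 : 0 < n := by
    by_contra hn0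
    have hn0' : n = 0 := by omega
    rw [hn0'] at hcc
    have h1 : (2 : ℕ).choose 2 ≤ q.choose 2 := Nat.choose_le_choose 2 (by omega)
    simp at hcc h1
    omega
  have hpW : 1 ≤ p * W := Nat.succ_le_of_lt (Nat.mul_pos (by omega) (by omega))
  have hpos' : 0 < n * (p * W) := Nat.mul_pos hn0 (by omega)
  have hwn : 2 * (w * n) ≤ n * (p * W) := by
    calc 2 * (w * n) = n * (2 * w) := by ring
      _ ≤ n * (p * W) := Nat.mul_le_mul_left _ hwp
  have hwn' : w ≤ w * n := Nat.le_mul_of_pos_right _ hn0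
  have hqn : q ≤ n := by
    by_contra hqn
    have h1 : n.choose 2 ≤ q.choose 2 := Nat.choose_le_choose 2 (by omega)
    omega
  have hfit : q + w ≤ n := by
    by_contra hfit
    have h1 := Pool.Agent.T9h36.choose_two_add q (n - q)
    have h2 : q + (n - q) = n := by omega
    rw [h2] at h1
    have h3 : (n - q) * n < w * n := Nat.mul_lt_mul_of_pos_right (by omega) hn0
    omega
  obtain ⟨u, hu⟩ : ∃ u, q = a * 2 + (a * (2 * (b * k)) + u) :=
    ⟨q - (a * 2 + a * (2 * (b * k))), by omega⟩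
  obtain ⟨d, hdn⟩ : ∃ d, u + d + w = n := ⟨n - u - w, by omega⟩
  have hcardG : Fintype.card (Grp a b k u) = q := by
    simp only [Grp, Fintype.card_sum, Fintype.card_prod, Fintype.card_fin, Fintype.card_bool]
    omega
  have hcardV : Fintype.card (GVtx a b k u p) = u + w := by
    simp only [GVtx, Fintype.card_sum, Fintype.card_prod, Fintype.card_fin, Fintype.card_bool,
      Fintype.card_fun, ZMod.card]
    rw [hw]
    ring
  have hchoose : (u + w).choose 2 ≤ q.choose 2 + w * n := by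
    calc (u + w).choose 2 ≤ (q + w).choose 2 := Nat.choose_le_choose 2 (by omega)
      _ ≤ q.choose 2 + w * (q + w) := Pool.Agent.T9h36.choose_two_add q w
      _ ≤ q.choose 2 + w * n := Nat.add_le_add_left (Nat.mul_le_mul_left _ hfit) _
  have haX : a ≤ a * 2 ^ (2 * b) := Nat.le_mul_of_pos_right _ (by positivity)
  have key := Alt.alt_core (d := d) S (by omega) (by omega) n q w L M (f + 2) dd y z hcardG.symm hcardV hdn
    hard (by omega) C hd hs' hM hpos hneg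
    (fun _ => by omega)
    (fun i hi => by
      have h5 := hzle i hi
      omega)
    (fun i hi => by
      have h5 := h3 i hi
      omega)
    (fun i hi => by
      have h5 := h4 i hi
      omega)
  rcases key with key | key
  · rw [Nat.mul_sub, mul_one]
    omega
  · omega

end Pool.Agent.T9h35.RW.Alt
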