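import Pool.Agent.T9h35.RW.Chain
import Pool.Agent.T9h34.G.Average

/-!
The average-case form of the abstract lower bound, for any Boolean function.
-/

set_option autoImplicit false

namespace Pool.Agent.T9h35.RW

open Finset
open Pool.Agent.T9h34 (ind ind_of ind_not ind_nonneg ind_le_one ind_mono ind_or_le
  Ev Ev_mono Ev_mono' Ev_add Ev_const Ev_nonneg Ev_le_one)

variable {X : Type*} [Fintype X] [DecidableEq X] {Ω : Type*} [Fintype Ω] {N : T9h34.G.NoiseOp X}

variable {L : ℕ} {v : Ω → Finset X}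

theorem score_le_abs [Nonempty Ω] (r : ℕ) {η M : ℝ}
    (hfew : ∀ j < r, N.iter (j * (L + 1)) (fun U => ind (∃ ω, v ω ⊆ U)) ≤ η)
    (h : Finset X → Bool) (hup : T9h34.G.Mf N L r v (fun U W => ind (h U ≠ h W)) ≤ M) :
    T9h34.G.score N L r v (fun Z => ind (h Z = true ↔ ∃ ω, v ω ⊆ Z)) ≤ r + M + r * η := by
  have hpt : ∀ U : Finset X, ind (h U = true ↔ ∃ ω, v ω ⊆ U)
      + Ev v (fun V => ind (h (U ∪ V) = true ↔ ∃ ω, v ω ⊆ U ∪ V))
      ≤ 1 + (Ev v (fun V => ind (h U ≠ h (U ∪ V)))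
        + ind (∃ ω, v ω ⊆ U)) := by
    intro U
    by_cases hU : ∃ ω, v ω ⊆ U
    · rw [ind_of hU]
      have h2 := Ev_nonneg v (F := fun V => ind (h U ≠ h (U ∪ V)))
        (fun z => ind_nonneg _)
      have h3 := ind_le_one (h U = true ↔ ∃ ω, v ω ⊆ U)
      have h4 := Ev_le_one v
        (F := fun V => ind (h (U ∪ V) = true ↔ ∃ ω, v ω ⊆ U ∪ V))
        (fun z => ind_le_one _)
      linarith
    · have h2 : 0 ≤ ind (∃ ω, v ω ⊆ U) := ind_nonneg _
      have h3 : ind (h U = true ↔ ∃ ω, v ω ⊆ U)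
          + Ev v (fun V => ind (h (U ∪ V) = true ↔ ∃ ω, v ω ⊆ U ∪ V))
          ≤ Ev v (fun V => 1 + ind (h U ≠ h (U ∪ V))) := by
        rw [← Ev_const v (ind (h U = true ↔ ∃ ω, v ω ⊆ U)), ← Ev_add]
        apply Ev_mono'
        intro ω
        have hW : ∃ ω', v ω' ⊆ U ∪ v ω := ⟨ω, Finset.subset_union_right⟩
        by_cases hne : h U ≠ h (U ∪ v ω)
        · rw [ind_of hne]
          have h5 := ind_le_one (h U = true ↔ ∃ ω, v ω ⊆ U)
          have h6 := ind_le_one (h (U ∪ v ω) = true ↔ ∃ ω', v ω' ⊆ U ∪ v ω)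
          linarith
        · rw [ind_not hne]
          push Not at hne
          by_cases hc : h U = true
          · rw [ind_not (p := h U = true ↔ ∃ ω, v ω ⊆ U)
              (fun h => hU (h.1 hc))]
            have h6 := ind_le_one (h (U ∪ v ω) = true ↔ ∃ ω', v ω' ⊆ U ∪ v ω)
            linarith
          · rw [ind_not (p := h (U ∪ v ω) = true ↔ ∃ ω', v ω' ⊆ U ∪ v ω)
              (fun h => hc (by rw [hne]; exact h.2 hW))]
            have h5 := ind_le_one (h U = true ↔ ∃ ω, v ω ⊆ U)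
            linarith
      rw [Ev_add, Ev_const] at h3
      linarith
  have hstep : ∀ j ∈ Finset.range r, N.iter (j * (L + 1))
      (fun U => ind (h U = true ↔ ∃ ω, v ω ⊆ U)
        + Ev v (fun V => ind (h (U ∪ V) = true ↔ ∃ ω, v ω ⊆ U ∪ V)))
      ≤ 1 + (N.iter (j * (L + 1)) (fun U => Ev v (fun V => ind (h U ≠ h (U ∪ V)))) + η) := by
    intro j hj
    rw [Finset.mem_range] at hj
    refine le_trans (N.iter_mono _ hpt) ?_
    rw [N.iter_add, N.iter_const, N.iter_add]
    have h3 := hfew j hj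
    linarith
  unfold T9h34.G.score
  refine le_trans (Finset.sum_le_sum hstep) ?_
  rw [Finset.sum_add_distrib, Finset.sum_add_distrib, Finset.sum_const, Finset.sum_const,
    Finset.card_range, nsmul_eq_mul, nsmul_eq_mul, mul_one]
  unfold T9h34.G.Mf at hup
  linarith

end Pool.Agent.T9h35.RW
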