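import Pool.Agent.T9h35.RW.Approx

/-!
The chain argument for nondecreasing real gates of large fan-in and few further gates.
-/

set_option autoImplicit false

namespace Pool.Agent.T9h35.RW

open Finset
open Pool.Agent.T9h34 (ind ind_of ind_not ind_nonneg ind_le_one ind_mono ind_or_le cov cov_mono
  smalls mem_smalls Ev Ev_mono Ev_add Ev_const_mul Spread chi pull)

variable {X : Type*} [Fintype X] [DecidableEq X] {Ω : Type*} [Fintype Ω] {N : T9h34.G.NoiseOp X}

/-- The error term of the domination lemma for circuits of size at most `s`. -/
noncomputable def err (X : Type*) [Fintype X] [DecidableEq X] (L c s : ℕ) : ℝ :=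
  s * (1 / 2 : ℝ) ^ c + 3 * ((s + Fintype.card X) * del X L c)

theorem err_mono {L c s s' : ℕ} (h : s ≤ s') : err X L c s ≤ err X L c s' := by
  unfold err
  have h1 : (s : ℝ) ≤ s' := by exact_mod_cast h
  have h2 : (0 : ℝ) ≤ (1 / 2) ^ c := by positivity
  have h3 : 0 ≤ del X L c := del_nonneg
  have h4 := mul_le_mul_of_nonneg_right h1 h2
  have h5 := mul_le_mul_of_nonneg_right (add_le_add_left h1 (Fintype.card X : ℝ)) h3
  linarith

theorem err_nonneg {L c s : ℕ} : 0 ≤ err X L c s := by
  unfold err
  have h3 : 0 ≤ del X L c := del_nonneg
  positivity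

variable {L c f : ℕ} {B κ : ℝ} {v : Ω → Finset X}

/-- A circuit of nondecreasing gates separates few of the pairs. -/
theorem Mf_mono_circuit (H : Hyp N v L c f B κ) (r : ℕ) (C : Circuit X)
    (hm : ∀ g ∈ C.gates, g.IsMono f) {s : ℕ} (hs : C.size ≤ s) :
    T9h34.G.Mf N L r v (fun U W => ind (C.eval (chi U) ≠ C.eval (chi W)))
      ≤ 3 + r * err X L c s := by
  set F : Finset X → ℝ := fun U => ind (C.eval (chi U) = true) with hF
  have hstep : ∀ j : ℕ, N.iter (j * (L + 1))
      (fun U => Ev v (fun V => ind (C.eval (chi U) ≠ C.eval (chi (U ∪ V)))))
      ≤ 3 * (N.iter ((j + 1) * (L + 1)) F - N.iter (j * (L + 1)) F) + err X L c s := by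
    intro j
    have hpt : ∀ U : Finset X, Ev v (fun V => ind (C.eval (chi U) ≠ C.eval (chi (U ∪ V))))
        ≤ 3 * (N.iter (L + 1) (fun W => F (U ∪ W)) - F U) + err X L c s := by
      intro U
      by_cases hU : C.eval (chi U) = true
      · have h1 : ∀ W : Finset X, C.eval (chi (U ∪ W)) = true := by
          intro W
          refine Circuit.eval_mono (f := f) ?_ C hm hU
          intro i hi
          simp only [chi, decide_eq_true_eq] at hi ⊢
          exact Finset.mem_union_left _ hi
        have h2 : (fun V : Finset X => ind (C.eval (chi U) ≠ C.eval (chi (U ∪ V))))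
            = fun _ => (0 : ℝ) * 1 := by
          funext V
          rw [ind_not, zero_mul]
          rw [hU, h1 V]
          simp
        rw [h2, Ev_const_mul, zero_mul]
        have h3 : (fun W : Finset X => F (U ∪ W)) = fun _ => 1 := by
          funext W
          exact ind_of (h1 W)
        rw [h3, N.iter_const]
        have h4 : F U = 1 := ind_of hU
        rw [h4]
        have := err_nonneg (X := X) (L := L) (c := c) (s := s)
        linarith
      · have hU' : C.eval (chi U) = false := by simpa using hU
        -- the restricted circuit
        set σ : X → X ⊕ Bool := fun i => if i ∈ U then Sum.inr true else Sum.inl i with hσ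
        have hpull : ∀ V : Finset X, pull σ (chi V) = chi (U ∪ V) := by
          intro V
          funext i
          simp only [pull, hσ, chi]
          by_cases hi : i ∈ U
          · simp [hi]
          · simp [hi, chi]
        have hev : ∀ V : Finset X, (C.subst σ).eval (chi V) = C.eval (chi (U ∪ V)) := by
          intro V
          rw [Circuit.eval_subst, hpull]
        have hm' : ∀ g ∈ (C.subst σ).gates, g.IsMono f := by
          intro g hg
          simp only [Circuit.subst, List.mem_map] at hg
          obtain ⟨g', hg', rfl⟩ := hg
          exact Gate.isMono_subst σ g' (hm g' hg')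
        have hdom := domination H (C.subst σ) hm'
        simp only [hev] at hdom
        rw [Circuit.size_subst] at hdom
        have h1 : Ev v (fun V => ind (C.eval (chi U) ≠ C.eval (chi (U ∪ V))))
            ≤ Ev v (fun V => ind (C.eval (chi (U ∪ V)) = true)) := by
          apply Ev_mono
          intro V
          apply ind_mono
          intro h
          rw [hU'] at h
          simpa using h.symm
        have h2 : F U = 0 := ind_not hU
        have h3 := err_mono (X := X) (L := L) (c := c) hs
        unfold err at h3
        rw [h2]
        unfold err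
        linarith
    refine le_trans (N.iter_mono _ hpt) ?_
    rw [N.iter_add, N.iter_const, N.iter_const_mul, N.iter_sub]
    have : (j + 1) * (L + 1) = j * (L + 1) + (L + 1) := by ring
    rw [this, N.iter_add_rounds (j * (L + 1)) (L + 1) F]
  unfold T9h34.G.Mf
  refine le_trans (Finset.sum_le_sum (fun j _ => hstep j)) ?_
  rw [Finset.sum_add_distrib, ← Finset.mul_sum,
    Finset.sum_range_sub (fun j => N.iter (j * (L + 1)) F)]
  have h1 : N.iter (r * (L + 1)) F ≤ 1 := N.iter_le_one _ (fun z => ind_le_one _)
  have h2 : 0 ≤ N.iter (0 * (L + 1)) F := N.iter_nonneg _ (fun z => ind_nonneg _)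
  rw [Finset.sum_const, Finset.card_range, nsmul_eq_mul]
  linarith

/-- The induction on the number of further gates. -/
theorem Mf_circuit (H : Hyp N v L c f B κ) (r s d : ℕ) (t : ℕ) (C : Circuit X)
    (ht : C.numOther = t) (hs : C.size ≤ s) (hd : C.FanIn f d) :
    T9h34.G.Mf N L r v (fun U W => ind (C.eval (chi U) ≠ C.eval (chi W)))
      ≤ ((2 : ℝ) ^ t * (1 + d) - d) * (3 + r * err X L c s) := by
  induction t generalizing C with
  | zero =>
    have hm : ∀ g ∈ C.gates, g.IsMono f := isMono_of_countP C.gates hd ht
    have := Mf_mono_circuit H r C hm hs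
    rw [pow_zero, one_mul, add_sub_cancel_right, one_mul]
    exact this
  | succ t ih =>
    obtain ⟨pre, tests, φ, post, hgs, hpre⟩ := exists_first_other C.gates hd (by
      unfold Circuit.numOther at ht; omega)
    set γ := 3 + r * err X L c s with hγ
    have hγ0 : 0 ≤ γ := by
      have := err_nonneg (X := X) (L := L) (c := c) (s := s)
      positivity
    set Cb : Bool → Circuit X := fun b => ⟨pre ++ constGate b :: post, C.out⟩ with hCb
    have hlen : ∀ b, (Cb b).size ≤ s := by
      intro b
      have : (Cb b).size = C.size := by
        simp only [Circuit.size, hCb, hgs, List.length_append, List.length_cons]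
      omega
    have hnum : ∀ b, (Cb b).numOther = t := by
      intro b
      unfold Circuit.numOther at ht ⊢
      rw [hgs] at ht
      simp only [hCb] at ht ⊢
      rw [List.countP_append, List.countP_cons_of_pos (by simp [Gate.isOther])] at ht
      rw [List.countP_append, List.countP_cons_of_neg (by simp [Gate.isOther, constGate])]
      omega
    have hfan : ∀ b, (Cb b).FanIn f d := by
      intro b g hmem
      simp only [hCb, List.mem_append, List.mem_cons] at hmem
      rcases hmem with h | h | h
      · exact hd g (by rw [hgs]; exact List.mem_append_left _ h)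
      · rw [h]; exact constGate_fanIn f d b
      · exact hd g (by rw [hgs]; exact List.mem_append_right _ (List.mem_cons_of_mem _ h))
    have htests : tests.length ≤ d := hd (.other tests φ) (by rw [hgs]; simp)
    have hpt : ∀ U W : Finset X, ind (C.eval (chi U) ≠ C.eval (chi W))
        ≤ (tests.map (fun a => ind ((⟨pre, a⟩ : Circuit X).eval (chi U)
              ≠ (⟨pre, a⟩ : Circuit X).eval (chi W)))).sum
          + (ind ((Cb false).eval (chi U) ≠ (Cb false).eval (chi W))
            + ind ((Cb true).eval (chi U) ≠ (Cb true).eval (chi W))) := by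
      intro U W
      by_cases hall : ∀ a ∈ tests, (⟨pre, a⟩ : Circuit X).eval (chi U)
          = (⟨pre, a⟩ : Circuit X).eval (chi W)
      · set b := φ (tests.map (fun a => Test.eval (chi U) (runGates (chi U) pre) a)) with hb
        have hb' : φ (tests.map (fun a => Test.eval (chi W) (runGates (chi W) pre) a)) = b := by
          rw [hb]
          congr 1
          apply List.map_congr_left
          intro a ha
          exact (hall a ha).symm
        have hrun : ∀ Z : Finset X,
            φ (tests.map (fun a => Test.eval (chi Z) (runGates (chi Z) pre) a)) = b →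
            C.eval (chi Z) = (Cb b).eval (chi Z) := by
          intro Z hZ
          unfold Circuit.eval
          simp only [hCb]
          rw [hgs, runGates_split, runGates_split]
          have h1 : (Gate.other tests φ : Gate X).eval (chi Z) (runGates (chi Z) pre)
              = if b then 1 else 0 := by
            simp only [Gate.eval]
            rw [hZ]
          rw [h1, constGate_eval]
        have hU := hrun U hb.symm
        have hW := hrun W hb'
        rw [hU, hW]
        have hsum : 0 ≤ (tests.map (fun a => ind ((⟨pre, a⟩ : Circuit X).eval (chi U)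
              ≠ (⟨pre, a⟩ : Circuit X).eval (chi W)))).sum := by
          apply List.sum_nonneg
          intro y hy
          simp only [List.mem_map] at hy
          obtain ⟨a, _, rfl⟩ := hy
          exact ind_nonneg _
        have h0 := ind_nonneg ((Cb false).eval (chi U) ≠ (Cb false).eval (chi W))
        have h1 := ind_nonneg ((Cb true).eval (chi U) ≠ (Cb true).eval (chi W))
        cases b <;> linarith
      · push Not at hall
        obtain ⟨a, ha, hne⟩ := hall
        have h1 : (1 : ℝ) ≤ (tests.map (fun a => ind ((⟨pre, a⟩ : Circuit X).eval (chi U)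
              ≠ (⟨pre, a⟩ : Circuit X).eval (chi W)))).sum := by
          rw [← ind_of hne]
          apply List.single_le_sum
          · intro y hy
            simp only [List.mem_map] at hy
            obtain ⟨a, _, rfl⟩ := hy
            exact ind_nonneg _
          · exact List.mem_map.2 ⟨a, ha, rfl⟩
        have h0 := ind_nonneg ((Cb false).eval (chi U) ≠ (Cb false).eval (chi W))
        have h2 := ind_nonneg ((Cb true).eval (chi U) ≠ (Cb true).eval (chi W))
        have h3 := ind_le_one (C.eval (chi U) ≠ C.eval (chi W))
        linarith
    refine le_trans (T9h34.G.Mf_mono L r v hpt) ?_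
    rw [T9h34.G.Mf_add, T9h34.G.Mf_add]
    have h1 : T9h34.G.Mf N L r v (fun U W => (tests.map (fun a => ind ((⟨pre, a⟩ :
        Circuit X).eval (chi U) ≠ (⟨pre, a⟩ : Circuit X).eval (chi W)))).sum)
          ≤ tests.length * γ := by
      apply T9h34.G.Mf_list
      intro a _
      apply Mf_mono_circuit H r ⟨pre, a⟩ hpre
      have : C.size = pre.length + (post.length + 1) := by
        simp only [Circuit.size, hgs, List.length_append, List.length_cons]
      have h2 : (⟨pre, a⟩ : Circuit X).size = pre.length := rfl
      omega
    have h2 := ih (Cb false) (hnum false) (hlen false) (hfan false)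
    have h3 := ih (Cb true) (hnum true) (hlen true) (hfan true)
    have h4 : (tests.length : ℝ) * γ ≤ d * γ := by
      apply mul_le_mul_of_nonneg_right _ hγ0
      exact_mod_cast htests
    rw [pow_succ]
    linarith

/-- A Boolean function `h` has at most `γ` times the separation of a small monotone circuit, after
every substitution of its variables, under all noise operators for fan-in `f` and size `s`. -/
def Sep (f s : ℕ) (γ : ℝ) {ι : Type} (h : (ι → Bool) → Bool) : Prop :=
  ∀ (X Ω : Type) [Fintype X] [DecidableEq X] [Fintype Ω] (N : T9h34.G.NoiseOp X)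
    (v : Ω → Finset X) (L c : ℕ) (B κ : ℝ), Hyp N v L c f B κ →
    ∀ (r : ℕ) (σ : ι → X ⊕ Bool),
      T9h34.G.Mf N L r v (fun U W => ind (h (pull σ (chi U)) ≠ h (pull σ (chi W))))
        ≤ γ * (3 + r * err X L c s)

theorem sep_circuit {ι : Type} (f s d : ℕ) (C : Circuit ι) (hs : C.size ≤ s)
    (hd : C.FanIn f d) : Sep f s ((2 : ℝ) ^ C.numOther * (1 + d)) C.eval := by
  intro X Ω _ _ _ N v L c B κ H r σ
  have h1 := Mf_circuit H r s d C.numOther (C.subst σ) (Circuit.numOther_subst σ C)
    (by rw [Circuit.size_subst]; exact hs) (Circuit.fanIn_subst σ C hd)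
  simp only [Circuit.eval_subst] at h1
  refine h1.trans ?_
  apply mul_le_mul_of_nonneg_right
  · have : (0 : ℝ) ≤ d := Nat.cast_nonneg d
    linarith
  · have := err_nonneg (X := X) (L := L) (c := c) (s := s)
    positivity

end Pool.Agent.T9h35.RW
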