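import Pool.Agent.T9h35.Wide.Gate

/-!
The smallest closed family containing a family, and chains of closed families.
-/

set_option autoImplicit false

namespace Pool.Agent.T9h35.RW

open Finset Pool.Agent.T9h34 Pool.Agent.T9h35.Wide

variable {X : Type*} [Fintype X] [DecidableEq X] (N : G.NoiseOp X)

open Classical in
/-- The smallest closed family that contains `ℱ`. -/
noncomputable def cl (L c : ℕ) (ℱ : Finset (Finset X)) : Finset (Finset X) :=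
  (smalls c).filter (fun T => ∀ 𝒞, ℱ ⊆ 𝒞 → 𝒞 ⊆ smalls c → G.Closed N L c 𝒞 → T ∈ 𝒞)

variable {N}

theorem mem_cl {L c : ℕ} {ℱ : Finset (Finset X)} {T : Finset X} : T ∈ cl N L c ℱ ↔
    T.card ≤ c ∧ ∀ 𝒞, ℱ ⊆ 𝒞 → 𝒞 ⊆ smalls c → G.Closed N L c 𝒞 → T ∈ 𝒞 := by
  classical
  unfold cl
  rw [Finset.mem_filter, mem_smalls]

theorem cl_sub {L c : ℕ} {ℱ : Finset (Finset X)} : cl N L c ℱ ⊆ smalls c := by
  intro T hT
  exact mem_smalls.2 (mem_cl.1 hT).1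

theorem sub_cl {L c : ℕ} {ℱ : Finset (Finset X)} (h : ℱ ⊆ smalls c) : ℱ ⊆ cl N L c ℱ := by
  intro T hT
  exact mem_cl.2 ⟨mem_smalls.1 (h hT), fun 𝒞 h1 _ _ => h1 hT⟩

theorem cl_mono {L c : ℕ} {ℱ ℱ' : Finset (Finset X)} (h : ℱ ⊆ ℱ') :
    cl N L c ℱ ⊆ cl N L c ℱ' := by
  intro T hT
  rw [mem_cl] at hT ⊢
  exact ⟨hT.1, fun 𝒞 h1 h2 h3 => hT.2 𝒞 (h.trans h1) h2 h3⟩

theorem cl_closed {L c : ℕ} {ℱ : Finset (Finset X)} : G.Closed N L c (cl N L c ℱ) := by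
  intro T hT hlt
  rw [mem_cl]
  refine ⟨hT, fun 𝒞 h1 h2 h3 => h3 T hT (lt_of_le_of_lt (N.iter_mono L ?_) hlt)⟩
  intro W
  apply ind_mono
  intro h hc
  apply h
  refine cov_mono ?_ (le_refl _) hc
  intro S hS
  exact (mem_cl.1 hS).2 𝒞 h1 h2 h3

theorem cl_err {L c : ℕ} {ℱ : Finset (Finset X)} (h : ℱ ⊆ smalls c) (T : Finset X) :
    N.iter L (fun W => ind (cov (cl N L c ℱ) (T ∪ W) ∧ ¬ cov ℱ (T ∪ W)))
      ≤ ((smalls (X := X) c).card : ℝ) * (1 / 2 : ℝ) ^ L := by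
  obtain ⟨𝒞, h1, h2, h3, h4⟩ := G.exists_closure N (L := L) ℱ h
  have h5 : ∀ W : Finset X, ind (cov (cl N L c ℱ) (T ∪ W) ∧ ¬ cov ℱ (T ∪ W)) ≤
      ind (cov 𝒞 (T ∪ W) ∧ ¬ cov ℱ (T ∪ W)) := by
    intro W
    apply ind_mono
    rintro ⟨h6, h7⟩
    refine ⟨cov_mono ?_ (le_refl _) h6, h7⟩
    intro S hS
    exact (mem_cl.1 hS).2 𝒞 h1 h2 h3
  refine (N.iter_mono L h5).trans ((h4 T).trans ?_)
  apply mul_le_mul_of_nonneg_right _ (by positivity)
  exact_mod_cast Finset.card_le_card Finset.sdiff_subset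

/-- A decreasing chain of closed families, indexed by thresholds. -/
structure Chain (N : G.NoiseOp X) (L c : ℕ) (F : ℝ → Finset (Finset X)) : Prop where
  anti : ∀ a b : ℝ, a ≤ b → F b ⊆ F a
  closed : ∀ θ, G.Closed N L c (F θ)
  small : ∀ θ, F θ ⊆ smalls c

theorem exists_next {L c : ℕ} {F : ℝ → Finset (Finset X)} (hF : Chain N L c F) (U : Finset X)
    (h : ∃ θ, U ∉ F θ) : ∃ θ0, U ∉ F θ0 ∧ ∀ θ, U ∉ F θ → F θ ⊆ F θ0 := by
  classical
  set R : Finset (Finset (Finset X)) :=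
    (univ : Finset (Finset (Finset X))).filter (fun 𝒮 => ∃ θ, U ∉ F θ ∧ F θ = 𝒮) with hR
  have hne : R.Nonempty := by
    obtain ⟨θ, hθ⟩ := h
    exact ⟨F θ, by rw [hR, Finset.mem_filter]; exact ⟨Finset.mem_univ _, θ, hθ, rfl⟩⟩
  obtain ⟨𝒮, h𝒮, hmax⟩ := Finset.exists_max_image R (fun 𝒮 => 𝒮.card) hne
  rw [hR, Finset.mem_filter] at h𝒮
  obtain ⟨_, θ0, hθ0, rfl⟩ := h𝒮
  refine ⟨θ0, hθ0, fun θ hθ => ?_⟩
  rcases le_total θ0 θ with hle | hle
  · exact hF.anti _ _ hle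
  · have h1 := hF.anti _ _ hle
    have h2 := hmax (F θ) (by rw [hR, Finset.mem_filter]; exact ⟨Finset.mem_univ _, θ, hθ, rfl⟩)
    exact (Finset.eq_of_subset_of_card_le h1 h2).symm.subset

open Classical in
/-- The largest family of the chain that does not contain `U`. -/
noncomputable def nxt (F : ℝ → Finset (Finset X)) (U : Finset X) : Finset (Finset X) :=
  if h : ∃ θ0, U ∉ F θ0 ∧ ∀ θ, U ∉ F θ → F θ ⊆ F θ0 then F h.choose else ∅

theorem nxt_closed {L c : ℕ} {F : ℝ → Finset (Finset X)} (hF : Chain N L c F) (U : Finset X) :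
    G.Closed N L c (nxt F U) := by
  unfold nxt
  split_ifs with h
  · exact hF.closed _
  · exact closed_empty

theorem nxt_small {L c : ℕ} {F : ℝ → Finset (Finset X)} (hF : Chain N L c F) (U : Finset X) :
    nxt F U ⊆ smalls c := by
  unfold nxt
  split_ifs with h
  · exact hF.small _
  · simp

theorem not_mem_nxt {F : ℝ → Finset (Finset X)} (U : Finset X) : U ∉ nxt F U := by
  unfold nxt
  split_ifs with h
  · exact h.choose_spec.1
  · simp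

theorem sub_nxt {L c : ℕ} {F : ℝ → Finset (Finset X)} (hF : Chain N L c F) {U : Finset X} {θ : ℝ}
    (h : U ∉ F θ) : F θ ⊆ nxt F U := by
  have h1 := exists_next hF U ⟨θ, h⟩
  unfold nxt
  rw [dif_pos h1]
  exact h1.choose_spec.2 θ h

open Classical in
/-- A decreasing chain of families of small sets has few members. -/
theorem card_range_le {c : ℕ} {F : ℝ → Finset (Finset X)} (hanti : ∀ a b : ℝ, a ≤ b → F b ⊆ F a)
    (hsm : ∀ θ, F θ ⊆ smalls c) :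
    ((univ : Finset (Finset (Finset X))).filter (fun 𝒮 => ∃ θ, F θ = 𝒮)).card
      ≤ (smalls (X := X) c).card + 1 := by
  rw [← Finset.card_range ((smalls (X := X) c).card + 1)]
  apply Finset.card_le_card_of_injOn (fun 𝒮 => 𝒮.card)
  · intro 𝒮 h𝒮
    rw [Finset.mem_coe, Finset.mem_filter] at h𝒮
    obtain ⟨_, θ, rfl⟩ := h𝒮
    rw [Finset.mem_coe, Finset.mem_range]
    exact Nat.lt_succ_of_le (Finset.card_le_card (hsm θ))
  · intro 𝒮 h𝒮 𝒯 h𝒯 heq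
    rw [Finset.mem_coe, Finset.mem_filter] at h𝒮 h𝒯
    obtain ⟨_, θ, rfl⟩ := h𝒮
    obtain ⟨_, η, rfl⟩ := h𝒯
    simp only at heq
    rcases le_total θ η with hle | hle
    · exact (Finset.eq_of_subset_of_card_le (hanti _ _ hle) heq.le).symm
    · exact Finset.eq_of_subset_of_card_le (hanti _ _ hle) heq.ge

open Classical in
/-- The error made by closing all families of a chain. -/
theorem chain_err {L c : ℕ} {F : ℝ → Finset (Finset X)} (hanti : ∀ a b : ℝ, a ≤ b → F b ⊆ F a)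
    (hsm : ∀ θ, F θ ⊆ smalls c) (T : Finset X) :
    N.iter L (fun W => ind (∃ θ, cov (cl N L c (F θ)) (T ∪ W) ∧ ¬ cov (F θ) (T ∪ W)))
      ≤ (((smalls (X := X) c).card : ℝ) + 1) *
        (((smalls (X := X) c).card : ℝ) * (1 / 2 : ℝ) ^ L) := by
  set R := (univ : Finset (Finset (Finset X))).filter (fun 𝒮 => ∃ θ, F θ = 𝒮) with hR
  have h1 : ∀ W : Finset X, ind (∃ θ, cov (cl N L c (F θ)) (T ∪ W) ∧ ¬ cov (F θ) (T ∪ W)) ≤
      ∑ 𝒮 ∈ R, ind (cov (cl N L c 𝒮) (T ∪ W) ∧ ¬ cov 𝒮 (T ∪ W)) := by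
    intro W
    refine le_trans (ind_mono ?_) (ind_exists_le' _ _)
    rintro ⟨θ, hθ⟩
    exact ⟨F θ, by rw [hR, Finset.mem_filter]; exact ⟨Finset.mem_univ _, θ, rfl⟩, hθ⟩
  refine (N.iter_mono L h1).trans ?_
  rw [N.iter_sum]
  have h2 : ∀ 𝒮 ∈ R, N.iter L (fun W => ind (cov (cl N L c 𝒮) (T ∪ W) ∧ ¬ cov 𝒮 (T ∪ W))) ≤
      ((smalls (X := X) c).card : ℝ) * (1 / 2 : ℝ) ^ L := by
    intro 𝒮 h𝒮
    rw [hR, Finset.mem_filter] at h𝒮
    obtain ⟨_, θ, rfl⟩ := h𝒮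
    exact cl_err (hsm θ) T
  refine (Finset.sum_le_sum h2).trans ?_
  rw [Finset.sum_const, nsmul_eq_mul]
  apply mul_le_mul_of_nonneg_right _ (by positivity)
  have h3 := card_range_le hanti hsm
  rw [← hR] at h3
  exact_mod_cast h3

end Pool.Agent.T9h35.RW
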