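import Mathlib

/-!
# Circuits with real-valued gates

A circuit is a straight-line program.  Every gate computes a real number: either a nondecreasing
function of real numbers computed earlier (monotone real gates, Pudlák), or 0 or 1, depending on
the answers to tests (value at least threshold) on numbers computed earlier.
-/

set_option autoImplicit false

namespace Pool.Agent.T9h35.RW

/-- What a gate may read: an input variable (with value 0 or 1), a real constant, or the output of
an earlier gate (gates are numbered `0, 1, 2, …` in the order in which they are listed). -/
inductive Src (ι : Type*) where
  | input (i : ι)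
  | const (c : ℝ)
  | gate (j : ℕ)

/-- A test asks whether the value of a source is at least a given threshold. -/
abbrev Test (ι : Type*) := Src ι × ℝ

/-- A gate: `mono args φ` computes the function `φ` of the list of the real values it reads;
`other tests φ` computes the Boolean function `φ` of the answers to its tests, as 0 or 1. -/
inductive Gate (ι : Type*) where
  | mono (args : List (Src ι)) (φ : List ℝ → ℝ)
  | other (tests : List (Test ι)) (φ : List Bool → Bool)

/-- A circuit: the list of its gates and its output, a test. -/
structure Circuit (ι : Type*) where
  gates : List (Gate ι)
  out : Test ι

variable {ι : Type*}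

/-- Value of a source, given the values `x` of the input variables and the list `vals` of the
values of the earlier gates (a reference to a gate that is not an earlier one reads 0). -/
def Src.eval (x : ι → Bool) (vals : List ℝ) : Src ι → ℝ
  | .input i => if x i then 1 else 0
  | .const c => c
  | .gate j => vals.getD j 0

open Classical in
/-- Answer to a test. -/
noncomputable def Test.eval (x : ι → Bool) (vals : List ℝ) (t : Test ι) : Bool :=
  decide (t.2 ≤ t.1.eval x vals)

/-- Value of a gate. -/
noncomputable def Gate.eval (x : ι → Bool) (vals : List ℝ) : Gate ι → ℝ
  | .mono args φ => φ (args.map (fun a => a.eval x vals))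
  | .other tests φ => if φ (tests.map (fun t => Test.eval x vals t)) then 1 else 0

/-- The list of the values of all gates, computed in order. -/
noncomputable def runGates (x : ι → Bool) (gs : List (Gate ι)) : List ℝ :=
  gs.foldl (fun vals g => vals ++ [g.eval x vals]) []

/-- Whether the circuit accepts the input `x`. -/
noncomputable def Circuit.eval (C : Circuit ι) (x : ι → Bool) : Bool :=
  Test.eval x (runGates x C.gates) C.out

/-- The number of gates of the circuit. -/
def Circuit.size (C : Circuit ι) : ℕ := C.gates.length

/-- `φ` is nondecreasing in each of the real numbers it reads. -/
def Nondecreasing (φ : List ℝ → ℝ) : Prop :=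
  ∀ u v : List ℝ, List.Forall₂ (· ≤ ·) u v → φ u ≤ φ v

/-- Gates of the first kind compute a nondecreasing function of at most `f` numbers; gates of the
second kind use at most `d` tests. -/
def Gate.FanIn (f d : ℕ) : Gate ι → Prop
  | .mono args φ => args.length ≤ f ∧ Nondecreasing φ
  | .other tests _ => tests.length ≤ d

/-- All gates are of fan-in at most `f` or `d`. -/
def Circuit.FanIn (f d : ℕ) (C : Circuit ι) : Prop := ∀ g ∈ C.gates, g.FanIn f d

/-- Whether a gate is of the second kind. -/
def Gate.isOther : Gate ι → Bool
  | .mono _ _ => false
  | .other _ _ => true

/-- The number of gates of the second kind. -/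
def Circuit.numOther (C : Circuit ι) : ℕ := C.gates.countP Gate.isOther

end Pool.Agent.T9h35.RW
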