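import Pool.Agent.T9h35.RW.Params

/-!
The average-case lower bound for the clique problem and circuits of real gates of large fan-in.
-/

set_option autoImplicit false

namespace Pool.Agent.T9h35.RW

open Pool.Agent.T9h34 (ind ind_of ind_not ind_nonneg ind_le_one graphInput)

open Classical in
theorem average_case : ∃ K : ℕ, ∀ n s f : ℕ, ∃ μ : SimpleGraph (Fin (2 * n)) → ℝ,
    (∀ G, 0 ≤ μ G) ∧ ∑ G, μ G = 1 ∧
      ∀ (d : ℕ) (C : Circuit (Fin (2 * n) × Fin (2 * n))), C.size ≤ s → C.FanIn f d →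
        (n : ℝ) ^ 2 * ((∑ G with (C.eval (graphInput G) = true ↔ ∃ S, G.IsNClique n S), μ G)
            - 1 / 2)
          ≤ K * (Nat.log 2 n + 1) ^ 7 * (Nat.log 2 s + Nat.log 2 n + 1) ^ 2
            * (Nat.log 2 s + Nat.log 2 n + 1 + f) * (d + 1) * 2 ^ C.numOther := by
  refine ⟨239232614401, ?_⟩
  intro n s f
  set lam := Nat.log 2 n + 1 with hlam
  set l := Nat.log 2 s + Nat.log 2 n + 1 with hl
  have hn : n < 2 ^ lam := Nat.lt_pow_succ_log_self (by norm_num) n
  have hs : s < 2 ^ l := by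
    have h1 : s < 2 ^ (Nat.log 2 s + 1) := Nat.lt_pow_succ_log_self (by norm_num) _
    exact lt_of_lt_of_le h1 (Nat.pow_le_pow_right (by norm_num) (by omega))
  have hlamR : ((Nat.log 2 n : ℕ) : ℝ) + 1 = (lam : ℝ) := by rw [hlam]; push_cast; ring
  have hlR : ((Nat.log 2 s : ℕ) : ℝ) + ((Nat.log 2 n : ℕ) : ℝ) + 1 = (l : ℝ) := by
    rw [hl]; push_cast; ring
  have hf0 : (0 : ℝ) ≤ f := Nat.cast_nonneg f
  have key : ∃ μ : SimpleGraph (Fin (2 * n)) → ℝ,
    (∀ G, 0 ≤ μ G) ∧ ∑ G, μ G = 1 ∧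
      ∀ (γ : ℝ) (h : (Fin (2 * n) × Fin (2 * n) → Bool) → Bool), 1 ≤ γ → Sep f s γ h →
        (n : ℝ) ^ 2 * ((∑ G, μ G * ind (h (graphInput G) = true ↔ ∃ S, G.IsNClique n S))
            - 1 / 2)
          ≤ 239232614401 * (lam : ℝ) ^ 7 * (l : ℝ) ^ 2 * (l + f) * γ := by
    by_cases hbig : 59808153600 * lam ^ 7 * l ^ 2 * (l + f) < n ^ 2
    · exact main_abs hn (by omega : lam ≤ l) (by omega) hs hbig
    · push Not at hbig
      have hnR : (n : ℝ) ^ 2 ≤ 59808153600 * lam ^ 7 * l ^ 2 * (l + f) := by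
        exact_mod_cast hbig
      refine ⟨fun G => if G = ⊥ then 1 else 0, fun G => by positivity, by simp, ?_⟩
      intro γ h hγ _
      have h1 : (∑ G : SimpleGraph (Fin (2 * n)), (if G = ⊥ then (1 : ℝ) else 0)
          * ind (h (graphInput G) = true ↔ ∃ S, G.IsNClique n S)) ≤ 1 := by
        rw [Finset.sum_eq_single ⊥]
        · rw [if_pos rfl, one_mul]
          exact ind_le_one _
        · intro G _ hG
          rw [if_neg hG, zero_mul]
        · intro h
          exact absurd (Finset.mem_univ _) h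
      have h7 : (0 : ℝ) ≤ (lam : ℝ) ^ 7 * l ^ 2 * (l + f) := by positivity
      calc (n : ℝ) ^ 2 * ((∑ G : SimpleGraph (Fin (2 * n)), (if G = ⊥ then (1 : ℝ) else 0)
              * ind (h (graphInput G) = true ↔ ∃ S, G.IsNClique n S)) - 1 / 2)
          ≤ (n : ℝ) ^ 2 * 1 := by
            apply mul_le_mul_of_nonneg_left _ (sq_nonneg _)
            linarith
        _ ≤ 59808153600 * (lam : ℝ) ^ 7 * (l : ℝ) ^ 2 * (l + f) := by
            rw [mul_one]; exact hnR
        _ = 59808153600 * ((lam : ℝ) ^ 7 * l ^ 2 * (l + f)) := by ring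
        _ ≤ 239232614401 * ((lam : ℝ) ^ 7 * l ^ 2 * (l + f)) := by
            apply mul_le_mul_of_nonneg_right (by norm_num) h7
        _ = 239232614401 * ((lam : ℝ) ^ 7 * l ^ 2 * (l + f)) * 1 := by ring
        _ ≤ 239232614401 * ((lam : ℝ) ^ 7 * l ^ 2 * (l + f)) * γ := by
            apply mul_le_mul_of_nonneg_left hγ (by positivity)
        _ = _ := by ring
  obtain ⟨μ, h0, h1, h2⟩ := key
  refine ⟨μ, h0, h1, fun d C hC hd => ?_⟩
  have h3 : (∑ G with (C.eval (graphInput G) = true ↔ ∃ S, G.IsNClique n S), μ G)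
      = ∑ G, μ G * ind (C.eval (graphInput G) = true ↔ ∃ S, G.IsNClique n S) := by
    rw [Finset.sum_filter]
    apply Finset.sum_congr rfl
    intro G _
    by_cases h : (C.eval (graphInput G) = true ↔ ∃ S, G.IsNClique n S)
    · rw [if_pos h, ind_of h, mul_one]
    · rw [if_neg h, ind_not h, mul_zero]
  rw [h3]
  have hγ : (1 : ℝ) ≤ 2 ^ C.numOther * (1 + d) := by
    have h5 : (1 : ℝ) ≤ 1 + d := by linarith [(Nat.cast_nonneg d : (0 : ℝ) ≤ d)]
    have h6 : (1 : ℝ) ≤ 2 ^ C.numOther := one_le_pow₀ (by norm_num)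
    calc (1 : ℝ) = 1 * 1 := by ring
      _ ≤ _ := mul_le_mul h6 h5 (by norm_num) (by linarith)
  have h4 := h2 _ _ hγ (sep_circuit f s d C hC hd)
  refine h4.trans (le_of_eq ?_)
  rw [hlamR, hlR]
  push_cast
  ring

end Pool.Agent.T9h35.RW
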