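import Pool.Agent.T9h34.W.Functional
import Pool.Agent.T9h35.RW.Chain

set_option autoImplicit false

/-!
The induction on the number of further gates for an arbitrary additive and monotone functional,
circuits with real gates.
-/

namespace Pool.Agent.T9h35.RW

open Finset
open Pool.Agent.T9h34 (ind ind_of ind_not ind_nonneg ind_le_one ind_mono chi pull)
open Pool.Agent.T9h34.W (PairOp)

variable {X : Type*} [DecidableEq X]

/-- The induction on the number of further gates. -/
theorem pairOp_circuit (𝓜 : PairOp X) {f : ℕ} (s d : ℕ) {γ : ℝ} (hγ0 : 0 ≤ γ)
    (hγ : ∀ C : Circuit X, (∀ g ∈ C.gates, g.IsMono f) → C.size ≤ s →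
      𝓜.E (fun U W => ind (C.eval (chi U) ≠ C.eval (chi W))) ≤ γ) (t : ℕ) (C : Circuit X)
    (ht : C.numOther = t) (hs : C.size ≤ s) (hd : C.FanIn f d) :
    𝓜.E (fun U W => ind (C.eval (chi U) ≠ C.eval (chi W))) ≤ ((2 : ℝ) ^ t * (1 + d) - d) * γ := by
  classical
  induction t generalizing C with
  | zero =>
    have hm : ∀ g ∈ C.gates, g.IsMono f := isMono_of_countP C.gates hd ht
    have := hγ C hm hs
    rw [pow_zero, one_mul, add_sub_cancel_right, one_mul]
    exact this
  | succ t ih =>
    obtain ⟨pre, tests, φ, post, hgs, hpre⟩ := exists_first_other C.gates hd (by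
      unfold Circuit.numOther at ht; omega)
    set Cb : Bool → Circuit X := fun b => ⟨pre ++ constGate b :: post, C.out⟩ with hCb
    have hlen : ∀ b, (Cb b).size ≤ s := by
      intro b
      have : (Cb b).size = C.size := by
        simp only [Circuit.size, hCb, hgs, List.length_append, List.length_cons]
      omega
    have hnum : ∀ b, (Cb b).numOther = t := by
      intro b
      unfold Circuit.numOther at ht ⊢
      rw [hgs] at ht
      simp only [hCb] at ht ⊢
      rw [List.countP_append, List.countP_cons_of_pos (by simp [Gate.isOther])] at ht
      rw [List.countP_append, List.countP_cons_of_neg (by simp [Gate.isOther, constGate])]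
      omega
    have hfan : ∀ b, (Cb b).FanIn f d := by
      intro b g hmem
      simp only [hCb, List.mem_append, List.mem_cons] at hmem
      rcases hmem with h | h | h
      · exact hd g (by rw [hgs]; exact List.mem_append_left _ h)
      · rw [h]; exact constGate_fanIn f d b
      · exact hd g (by rw [hgs]; exact List.mem_append_right _ (List.mem_cons_of_mem _ h))
    have htests : tests.length ≤ d := hd (.other tests φ) (by rw [hgs]; simp)
    have hpt : ∀ U W : Finset X, ind (C.eval (chi U) ≠ C.eval (chi W))
        ≤ (tests.map (fun a => ind ((⟨pre, a⟩ : Circuit X).eval (chi U)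
              ≠ (⟨pre, a⟩ : Circuit X).eval (chi W)))).sum
          + (ind ((Cb false).eval (chi U) ≠ (Cb false).eval (chi W))
            + ind ((Cb true).eval (chi U) ≠ (Cb true).eval (chi W))) := by
      intro U W
      by_cases hall : ∀ a ∈ tests, (⟨pre, a⟩ : Circuit X).eval (chi U)
          = (⟨pre, a⟩ : Circuit X).eval (chi W)
      · set b := φ (tests.map (fun a => Test.eval (chi U) (runGates (chi U) pre) a)) with hb
        have hb' : φ (tests.map (fun a => Test.eval (chi W) (runGates (chi W) pre) a)) = b := by
          rw [hb]
          congr 1
          apply List.map_congr_left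
          intro a ha
          exact (hall a ha).symm
        have hrun : ∀ Z : Finset X,
            φ (tests.map (fun a => Test.eval (chi Z) (runGates (chi Z) pre) a)) = b →
            C.eval (chi Z) = (Cb b).eval (chi Z) := by
          intro Z hZ
          unfold Circuit.eval
          simp only [hCb]
          rw [hgs, runGates_split, runGates_split]
          have h1 : (Gate.other tests φ : Gate X).eval (chi Z) (runGates (chi Z) pre)
              = if b then 1 else 0 := by
            simp only [Gate.eval]
            rw [hZ]
          rw [h1, constGate_eval]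
        have hU := hrun U hb.symm
        have hW := hrun W hb'
        rw [hU, hW]
        have hsum : 0 ≤ (tests.map (fun a => ind ((⟨pre, a⟩ : Circuit X).eval (chi U)
              ≠ (⟨pre, a⟩ : Circuit X).eval (chi W)))).sum := by
          apply List.sum_nonneg
          intro y hy
          simp only [List.mem_map] at hy
          obtain ⟨a, _, rfl⟩ := hy
          exact ind_nonneg _
        have h0 := ind_nonneg ((Cb false).eval (chi U) ≠ (Cb false).eval (chi W))
        have h1 := ind_nonneg ((Cb true).eval (chi U) ≠ (Cb true).eval (chi W))
        cases b <;> linarith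
      · push Not at hall
        obtain ⟨a, ha, hne⟩ := hall
        have h1 : (1 : ℝ) ≤ (tests.map (fun a => ind ((⟨pre, a⟩ : Circuit X).eval (chi U)
              ≠ (⟨pre, a⟩ : Circuit X).eval (chi W)))).sum := by
          rw [← ind_of hne]
          apply List.single_le_sum
          · intro y hy
            simp only [List.mem_map] at hy
            obtain ⟨a, _, rfl⟩ := hy
            exact ind_nonneg _
          · exact List.mem_map.2 ⟨a, ha, rfl⟩
        have h0 := ind_nonneg ((Cb false).eval (chi U) ≠ (Cb false).eval (chi W))
        have h2 := ind_nonneg ((Cb true).eval (chi U) ≠ (Cb true).eval (chi W))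
        have h3 := ind_le_one (C.eval (chi U) ≠ C.eval (chi W))
        linarith
    refine le_trans (𝓜.mono' _ _ hpt) ?_
    rw [𝓜.add', 𝓜.add']
    have h1 : 𝓜.E (fun U W => (tests.map (fun a => ind ((⟨pre, a⟩ : Circuit X).eval (chi U)
              ≠ (⟨pre, a⟩ : Circuit X).eval (chi W)))).sum) ≤ tests.length * γ := by
      apply 𝓜.list
      intro a _
      apply hγ ⟨pre, a⟩ hpre
      have : C.size = pre.length + (post.length + 1) := by
        simp only [Circuit.size, hgs, List.length_append, List.length_cons]
      have h2 : (⟨pre, a⟩ : Circuit X).size = pre.length := rfl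
      omega
    have h2 := ih (Cb false) (hnum false) (hlen false) (hfan false)
    have h3 := ih (Cb true) (hnum true) (hlen true) (hfan true)
    have h4 : (tests.length : ℝ) * γ ≤ d * γ := by
      apply mul_le_mul_of_nonneg_right _ hγ0
      exact_mod_cast htests
    rw [pow_succ]
    linarith

end Pool.Agent.T9h35.RW
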