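import Pool.Agent.T9h35.RW.Grid

set_option autoImplicit false

/-!
Average case, all clique sizes, nondecreasing real gates of large fan-in.
-/

namespace Pool.Agent.T9h35.RW

open Finset Pool.Agent.T9h34.S Pool.Agent.T9h34.S.Gr
open Pool.Agent.T9h34 (ind ind_of ind_not ind_nonneg ind_le_one ind_mono smalls Ev Ev_mono Spread
  chi pull Ground wordSet card_wordSet graphInput)
open Pool.Agent.T9h34.G (Row sparseCode NoiseOp)
open Pool.Agent.T9h34.W (Mg Mg_monotone)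
open scoped Classical

/-- Domination on a block for circuits of nondecreasing real gates. -/
theorem dom_block {a b k m p : ℕ} {S : Row a b → Fin k → Fin m} {L c f : ℕ} {B κ : ℝ}
    {N : NoiseOp (Ground a b)} (H : RW.Hyp N (wordSet (sparseCode S)) L c f B κ) {s : ℕ} {δ : ℝ}
    (herr : RW.err (Ground a b) L c s ≤ δ)
    (C : Circuit (GGround a b p)) (hm : ∀ g ∈ C.gates, g.IsMono f) (hs : C.size ≤ s)
    (U : Finset (GGround a b p)) (e' : Fin p × Fin p) :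
    Ev (wordSet (sparseCode S)) (fun V => ind (C.eval (chi (put U e' V)) = true)) ≤
      3 * (T9h34.S.powOp N (L + 1)).E (fun W => ind (C.eval (chi (put U e' W)) = true)) + δ := by
  have hev : ∀ V : Finset (Ground a b), (C.subst (ovr U e')).eval (chi V) =
      C.eval (chi (put U e' V)) := by
    intro V
    rw [Circuit.eval_subst, pull_ovr]
  have hm' : ∀ g ∈ (C.subst (ovr U e')).gates, g.IsMono f := by
    intro g hg
    simp only [Circuit.subst, List.mem_map] at hg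
    obtain ⟨g', hg', rfl⟩ := hg
    exact Gate.isMono_subst _ g' (hm g' hg')
  have h := domination H (C.subst (ovr U e')) hm'
  simp only [hev] at h
  rw [Circuit.size_subst] at h
  have h2 := RW.err_mono (X := Ground a b) (L := L) (c := c) hs
  unfold RW.err at h2 herr
  change _ ≤ 3 * N.iter (L + 1) (fun W => ind (C.eval (chi (put U e' W)) = true)) + δ
  linarith

/-- The functional for the circuits with nondecreasing gates and `t` further gates. -/
theorem Mg_circuit {n a b k m p l lam f s L0 : ℕ} {S : Row a b → Fin k → Fin m}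
    {N : NoiseOp (Ground a b)} {B κ : ℝ} (e : ℕ → Fin p × Fin p)
    (σ : Fin n × Fin n → GGround a b p ⊕ Bool)
    (hs : s < 2 ^ L0) (hl : 2 ^ L0 ≤ 2 ^ l) (hl100 : 100 ≤ l) (hlam : 25 ≤ lam)
    (hX : Fintype.card (Ground a b) + 1 ≤ 2 ^ (2 * lam))
    (H : RW.Hyp N (wordSet (sparseCode S)) (14 * (lam * l)) (3 * l) f B κ)
    (hM : ((p ^ 2 : ℕ) : ℝ) * (1 / 2 : ℝ) ^ (2 * l) ≤ 1) (d : ℕ)
    (C : Circuit (Fin n × Fin n)) (hC : C.size ≤ s) (hd : C.FanIn f d) :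
    (Mg S (T9h34.S.powOp N (14 * (lam * l) + 1)) e (p ^ 2)).E
      (fun U W => ind (C.eval (pull σ (chi U)) ≠ C.eval (pull σ (chi W)))) ≤
        5 * ((d + 1) * 2 ^ C.numOther) := by
  have herr : RW.err (Ground a b) (14 * (lam * l)) (3 * l) s ≤ 2 * (1 / 2 : ℝ) ^ (2 * l) :=
    rerr_small (by omega) (by omega) (lt_of_lt_of_le hs hl) hX
  have hδ : (0 : ℝ) ≤ 2 * (1 / 2 : ℝ) ^ (2 * l) := by positivity
  have h1 := pairOp_circuit (Mg S (T9h34.S.powOp N (14 * (lam * l) + 1)) e (p ^ 2)) (f := f) s d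
    (γ := 3 + ((p ^ 2 : ℕ) : ℝ) * (2 * (1 / 2 : ℝ) ^ (2 * l))) (by positivity)
    (by
      intro C' hm hC'
      apply Mg_monotone (p ^ 2) (fun U => C'.eval (chi U))
      · intro U V hUV hU
        exact Circuit.eval_mono (f := f) (Gr.chi_le hUV) C' hm hU
      · exact hδ
      · intro U e'
        exact dom_block H herr C' hm hC' U e')
    C.numOther (C.subst σ) (Circuit.numOther_subst σ C)
    (by rw [Circuit.size_subst]; exact hC) (Circuit.fanIn_subst σ C hd)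
  simp only [Circuit.eval_subst] at h1
  refine h1.trans ?_
  have h2 : (0 : ℝ) ≤ d := Nat.cast_nonneg d
  have h3 : (1 : ℝ) ≤ 2 ^ C.numOther := one_le_pow₀ (by norm_num)
  have h4 : (0 : ℝ) ≤ (2 : ℝ) ^ C.numOther * (1 + d) - d := by nlinarith
  calc ((2 : ℝ) ^ C.numOther * (1 + d) - d) *
        (3 + ((p ^ 2 : ℕ) : ℝ) * (2 * (1 / 2 : ℝ) ^ (2 * l)))
      ≤ ((2 : ℝ) ^ C.numOther * (1 + d) - d) * 5 := by
        apply mul_le_mul_of_nonneg_left _ h4
        linarith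
    _ ≤ ((2 : ℝ) ^ C.numOther * (1 + d)) * 5 := by
        apply mul_le_mul_of_nonneg_right _ (by norm_num)
        linarith
    _ = _ := by ring

/-- **The theorem.** -/
theorem average_case_all : ∃ K : ℕ, ∀ n k s f : ℕ, k ≤ n →
    K * (Nat.log 2 s + Nat.log 2 n + 1) *
      (Nat.log 2 (Nat.log 2 s + Nat.log 2 n + 1 + f) + 1) ^ 4 ≤ k →
    ∃ μ : SimpleGraph (Fin n) → ℝ, (∀ G, 0 ≤ μ G) ∧ ∑ G, μ G = 1 ∧
      ∀ (d : ℕ) (C : Circuit (Fin n × Fin n)), C.size ≤ s → C.FanIn f d →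
        ((n - k : ℕ) : ℝ) ^ 2 *
            ((∑ G with (C.eval (graphInput G) = true ↔ ∃ T, G.IsNClique k T), μ G) - 1 / 2)
          ≤ K * (Nat.log 2 s + Nat.log 2 n + 1 : ℕ) ^ 2 *
            (Nat.log 2 s + Nat.log 2 n + 1 + f : ℕ) *
            (Nat.log 2 (Nat.log 2 s + Nat.log 2 n + 1 + f) + 1 : ℕ) ^ 7 *
            (d + 1) * 2 ^ C.numOther := by
  refine ⟨5 * 10 ^ 29, ?_⟩
  intro n q s f hqn hq
  obtain ⟨L0, hL0⟩ : ∃ L0, L0 = Nat.log 2 s + Nat.log 2 n + 1 := ⟨_, rfl⟩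
  rw [← hL0] at hq ⊢
  obtain ⟨z, hz⟩ : ∃ z, z = Nat.log 2 (L0 + f) + 1 := ⟨_, rfl⟩
  rw [← hz] at hq ⊢
  have hL1 : 1 ≤ L0 := by omega
  have hs : s < 2 ^ L0 := lt_of_lt_of_le (Nat.lt_pow_succ_log_self (by norm_num) _)
    (Nat.pow_le_pow_right (by norm_num) (by omega))
  have hn : n < 2 ^ L0 := lt_of_lt_of_le (Nat.lt_pow_succ_log_self (by norm_num) _)
    (Nat.pow_le_pow_right (by norm_num) (by omega))
  have hq' : 10 ^ 12 * (L0 * z ^ 4) ≤ q := by
    refine le_trans ?_ hq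
    rw [mul_assoc]
    exact Nat.mul_le_mul_right _ (by norm_num)
  have hR : ∀ (d t : ℕ), (8 * 10 ^ 28 * ((L0 : ℝ) ^ 2 * (L0 + f) * z ^ 7)) *
      (6 * ((d + 1) * 2 ^ t)) ≤ ((5 * 10 ^ 29 : ℕ) : ℝ) * (L0 : ℕ) ^ 2 * (L0 + f : ℕ) *
        (z : ℕ) ^ 7 * (d + 1) * 2 ^ t := by
    intro d t
    have h1 : (0 : ℝ) ≤ ((L0 : ℝ) ^ 2 * (L0 + f) * z ^ 7) * ((d + 1) * 2 ^ t) := by positivity
    push_cast
    linarith
  by_cases hbig : 8 * 10 ^ 28 * (L0 ^ 2 * (L0 + f) * z ^ 7) < (n - q) ^ 2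
  · obtain ⟨a, b, k, m, p, l, lam, S, N, B, κ, e, σ, μ, h1, h2, h3, h4, h5, h6, h7, h8, h9⟩ :=
      rgrid_case hqn hL1 hn hz hq' hbig
    refine ⟨μ, h7, h8, ?_⟩
    intro d C hC hd
    have h10 := h9 C.eval _ (Mg_circuit e σ hs h1 h2 h3 h4 h5 h6 d C hC hd)
    refine le_trans h10 (le_trans ?_ (hR d C.numOther))
    apply mul_le_mul_of_nonneg_left _ (by positivity)
    have h11 : (1 : ℝ) ≤ (d + 1) * 2 ^ C.numOther := by
      have h12 : (1 : ℝ) ≤ d + 1 := by linarith [(Nat.cast_nonneg d : (0 : ℝ) ≤ d)]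
      have h13 : (1 : ℝ) ≤ 2 ^ C.numOther := one_le_pow₀ (by norm_num)
      calc (1 : ℝ) = 1 * 1 := by ring
        _ ≤ _ := mul_le_mul h12 h13 (by norm_num) (by linarith)
    linarith
  · push Not at hbig
    refine ⟨fun G => if G = ⊥ then 1 else 0, fun G => by positivity, by simp, ?_⟩
    intro d C _ _
    have h2 : (∑ G with (C.eval (graphInput G) = true ↔ ∃ T, G.IsNClique q T),
        (if G = (⊥ : SimpleGraph (Fin n)) then (1 : ℝ) else 0)) ≤ 1 := by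
      refine (Finset.sum_le_univ_sum_of_nonneg (fun G => by positivity)).trans (le_of_eq ?_)
      simp
    refine le_trans ?_ (hR d C.numOther)
    have h3 : ((n - q : ℕ) : ℝ) ^ 2 ≤ 8 * 10 ^ 28 * ((L0 : ℝ) ^ 2 * (L0 + f) * z ^ 7) := by
      exact_mod_cast hbig
    have h11 : (1 : ℝ) ≤ 6 * ((d + 1) * 2 ^ C.numOther) := by
      have h12 : (1 : ℝ) ≤ d + 1 := by linarith [(Nat.cast_nonneg d : (0 : ℝ) ≤ d)]
      have h13 : (1 : ℝ) ≤ 2 ^ C.numOther := one_le_pow₀ (by norm_num)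
      have h14 : (1 : ℝ) ≤ (d + 1) * 2 ^ C.numOther := by
        calc (1 : ℝ) = 1 * 1 := by ring
          _ ≤ _ := mul_le_mul h12 h13 (by norm_num) (by linarith)
      linarith
    calc ((n - q : ℕ) : ℝ) ^ 2 * ((∑ G with (C.eval (graphInput G) = true ↔
            ∃ T, G.IsNClique q T), (if G = (⊥ : SimpleGraph (Fin n)) then (1 : ℝ) else 0)) - 1 / 2)
        ≤ ((n - q : ℕ) : ℝ) ^ 2 * 1 :=
          mul_le_mul_of_nonneg_left (by linarith) (by positivity)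
      _ ≤ (8 * 10 ^ 28 * ((L0 : ℝ) ^ 2 * (L0 + f) * z ^ 7)) * 1 := by
          rw [mul_one, mul_one]; exact h3
      _ ≤ _ := mul_le_mul_of_nonneg_left h11 (by positivity)

end Pool.Agent.T9h35.RW
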